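import Pool.Agent.P.MP_14079b_lc.Defs

set_option autoImplicit false

namespace KBC

variable {F : Type} {ar : F → ℕ}

@[simp] theorem sub_var' (σ : ℕ → Tm ar) (x : ℕ) : (Tm.var x : Tm ar).sub σ = σ x := rfl
@[simp] theorem sub_app (σ : ℕ → Tm ar) (f : F) (a : Fin (ar f) → Tm ar) :
    (Tm.app f a).sub σ = .app f (fun i => (a i).sub σ) := rfl
@[simp] theorem fill_hole (u : Tm ar) : (Ctx.hole : Ctx ar).fill u = u := rfl
@[simp] theorem fill_app (f : F) (a : Fin (ar f) → Tm ar) (i : Fin (ar f)) (C : Ctx ar) (u : Tm ar) :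
    (Ctx.app f a i C).fill u = .app f (Function.update a i (C.fill u)) := rfl
@[simp] theorem csub_hole (σ : ℕ → Tm ar) : (Ctx.hole : Ctx ar).sub σ = .hole := rfl
@[simp] theorem csub_app (σ : ℕ → Tm ar) (f : F) (a : Fin (ar f) → Tm ar) (i : Fin (ar f))
    (C : Ctx ar) : (Ctx.app f a i C).sub σ = .app f (fun j => (a j).sub σ) i (C.sub σ) := rfl

@[simp] theorem sub_id (t : Tm ar) : t.sub Tm.var = t := by
  induction t with
  | var x => rfl
  | app f a ih => simp [ih]

theorem sub_sub (σ τ : ℕ → Tm ar) (t : Tm ar) :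
    (t.sub σ).sub τ = t.sub (fun x => (σ x).sub τ) := by
  induction t with
  | var x => rfl
  | app f a ih => simp [ih]

theorem fill_sub (σ : ℕ → Tm ar) (C : Ctx ar) (u : Tm ar) :
    (C.fill u).sub σ = (C.sub σ).fill (u.sub σ) := by
  induction C with
  | hole => rfl
  | app f a i C ih =>
    simp only [fill_app, sub_app, csub_app]
    congr 1
    funext j
    by_cases h : j = i
    · subst h; simp [ih]
    · simp [Function.update_of_ne h]

@[simp] theorem csub_id (C : Ctx ar) : C.sub Tm.var = C := by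
  induction C with
  | hole => rfl
  | app f a i C ih => simp [ih]

def Ctx.comp : Ctx ar → Ctx ar → Ctx ar
  | .hole, D => D
  | .app f a i C, D => .app f a i (C.comp D)

theorem fill_comp (C D : Ctx ar) (u : Tm ar) : (C.comp D).fill u = C.fill (D.fill u) := by
  induction C with
  | hole => rfl
  | app f a i C ih => simp [Ctx.comp, ih]

theorem app_inj {f : F} {a b : Fin (ar f) → Tm ar} (h : Tm.app f a = Tm.app f b) : a = b := by
  injection h

theorem app_hd {f g : F} {a : Fin (ar f) → Tm ar} {b : Fin (ar g) → Tm ar}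
    (h : Tm.app f a = Tm.app g b) : f = g := by
  injection h

theorem fill_inj (C : Ctx ar) {u v : Tm ar} (h : C.fill u = C.fill v) : u = v := by
  induction C with
  | hole => exact h
  | app f a i C ih =>
    have := congrFun (app_inj h) i
    simp at this
    exact ih this

theorem Rew.mono {R S : Set (Tm ar × Tm ar)} (h : R ⊆ S) {s t : Tm ar} (hs : Rew R s t) :
    Rew S s t := by
  obtain ⟨l, r, C, σ, h1, h2, h3⟩ := hs
  exact ⟨l, r, C, σ, h h1, h2, h3⟩

theorem Rew.rule {R : Set (Tm ar × Tm ar)} {l r : Tm ar} (h : (l, r) ∈ R) : Rew R l r :=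
  ⟨l, r, .hole, Tm.var, h, by simp, by simp⟩

theorem Rew.ctx {R : Set (Tm ar × Tm ar)} {s t : Tm ar} (h : Rew R s t) (C : Ctx ar)
    (σ : ℕ → Tm ar) : Rew R (C.fill (s.sub σ)) (C.fill (t.sub σ)) := by
  obtain ⟨l, r, D, τ, h1, rfl, rfl⟩ := h
  refine ⟨l, r, C.comp (D.sub σ), fun x => (τ x).sub σ, h1, ?_, ?_⟩ <;>
    rw [fill_comp, fill_sub, sub_sub]

theorem IsRedOrd.irrefl {gt : Tm ar → Tm ar → Prop} (h : IsRedOrd gt) (s : Tm ar) : ¬ gt s s :=
  fun hs => h.2.1.asymmetric s s hs hs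

theorem IsRedOrd.rew {gt : Tm ar → Tm ar → Prop} (h : IsRedOrd gt) {R : Set (Tm ar × Tm ar)}
    (hR : ∀ l r, (l, r) ∈ R → gt l r) {s t : Tm ar} (hs : Rew R s t) : gt s t := by
  obtain ⟨l, r, C, σ, h1, rfl, rfl⟩ := hs
  exact h.2.2 _ _ _ _ (hR _ _ h1)

theorem IsRedOrd.no_loop {gt : Tm ar → Tm ar → Prop} (h : IsRedOrd gt) (C : Ctx ar) (w : Tm ar) :
    ¬ gt w (C.fill w) := by
  induction w using h.2.1.induction with
  | _ w ih =>
    intro hw
    refine ih _ hw ?_
    have := h.2.2 _ _ C Tm.var hw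
    simpa using this

/-- the variable `x` occurs in `t` -/
def Occ (x : ℕ) (t : Tm ar) : Prop := ∃ C : Ctx ar, t = C.fill (.var x)

theorem occ_app {x : ℕ} {f : F} {a : Fin (ar f) → Tm ar} (i : Fin (ar f)) (h : Occ x (a i)) :
    Occ x (Tm.app f a) := by
  obtain ⟨C, hC⟩ := h
  exact ⟨.app f a i C, by simp [← hC]⟩

theorem sub_congr {t : Tm ar} {σ τ : ℕ → Tm ar} (h : ∀ x, Occ x t → σ x = τ x) :
    t.sub σ = t.sub τ := by
  induction t with
  | var x => exact h x ⟨.hole, rfl⟩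
  | app f a ih =>
    simp only [sub_app]
    congr 1
    funext i
    exact ih i (fun x hx => h x (occ_app i hx))

theorem sub_eq_of_fill {σ τ : ℕ → Tm ar} (C : Ctx ar) (u : Tm ar)
    (h : (C.fill u).sub σ = (C.fill u).sub τ) : u.sub σ = u.sub τ := by
  induction C with
  | hole => exact h
  | app f a i C ih =>
    have := congrFun (app_inj h) i
    simp at this
    exact ih this

theorem occ_agree {t : Tm ar} {σ τ : ℕ → Tm ar} (h : t.sub σ = t.sub τ) {x : ℕ} (hx : Occ x t) :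
    σ x = τ x := by
  obtain ⟨C, rfl⟩ := hx
  exact sub_eq_of_fill C _ h

theorem IsRedOrd.occ {gt : Tm ar → Tm ar → Prop} (h : IsRedOrd gt) {l r : Tm ar} (hl : gt l r)
    {x : ℕ} (hx : Occ x r) : Occ x l := by
  classical
  by_contra hn
  obtain ⟨C, rfl⟩ := hx
  have h1 := h.2.2 _ _ .hole (Function.update Tm.var x l) hl
  have h2 : l.sub (Function.update Tm.var x l) = l := by
    rw [sub_congr (τ := Tm.var), sub_id]
    intro y hy
    have : y ≠ x := fun e => hn (e ▸ hy)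
    simp [Function.update_of_ne this]
  simp only [fill_hole, h2, fill_sub, sub_var', Function.update_self] at h1
  exact h.no_loop _ _ h1

theorem IsRedOrd.agree {gt : Tm ar → Tm ar → Prop} (h : IsRedOrd gt) {l r : Tm ar} (hl : gt l r)
    {σ τ : ℕ → Tm ar} (e : l.sub σ = l.sub τ) : r.sub σ = r.sub τ :=
  sub_congr (fun _ hx => occ_agree e (h.occ hl hx))

theorem IsRedOrd.not_var {gt : Tm ar → Tm ar → Prop} (h : IsRedOrd gt) {x : ℕ} {r : Tm ar} :
    ¬ gt (.var x) r := by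
  intro hl
  have key : ∀ t : Tm ar, (∀ y, ¬ Occ y t) ∨ ∃ y, Occ y t := fun t => by
    by_cases e : ∃ y, Occ y t
    · exact Or.inr e
    · exact Or.inl (fun y hy => e ⟨y, hy⟩)
  rcases key r with h0 | ⟨y, hy⟩
  · have h1 := h.2.2 _ _ .hole (fun _ => r) hl
    have h2 : r.sub (fun _ => r) = r := by
      rw [sub_congr (τ := Tm.var) (fun y hy => (h0 y hy).elim), sub_id]
    simp only [fill_hole, sub_var', h2] at h1
    exact h.irrefl _ h1
  · obtain ⟨C, rfl⟩ := hy
    have h1 := h.2.2 _ _ .hole (fun _ => Tm.var 0) hl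
    simp only [fill_hole, sub_var', fill_sub] at h1
    exact h.no_loop _ _ h1

/-- an element of `X i` that does not persist is removed at some later step -/
theorem removed {α : Type} {X : ℕ → Set α} {a : α} {i : ℕ} (hi : a ∈ X i) (hp : a ∉ persist X) :
    ∃ k, i ≤ k ∧ a ∈ X k ∧ a ∉ X (k + 1) := by
  by_contra hn
  push Not at hn
  refine hp ⟨i, fun j hj => ?_⟩
  induction j, hj using Nat.le_induction with
  | base => exact hi
  | succ j hj ih => exact hn j hj ih

section run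
variable {E : ℕ → Set (Sym2 (Tm ar))} {R : ℕ → Set (Tm ar × Tm ar)}

theorem IsRun.ord (h : IsRun E R) (i : ℕ) :
    ∃ gt, IsRedOrd gt ∧ ∀ l r, (l, r) ∈ R i → gt l r := by
  obtain ⟨_, _, gt, h⟩ := h
  exact ⟨gt i, (h i).1, (h i).2.1⟩

/-- how an equation disappears -/
theorem IsRun.eq_out (h : IsRun E R) {k : ℕ} {e : Sym2 (Tm ar)} (h1 : e ∈ E k)
    (h2 : e ∉ E (k + 1)) :
    ∃ s t, e = s(s, t) ∧ ((s, t) ∈ R (k + 1) ∨ s = t ∨
      ∃ u, Rew (R k) s u ∧ s(u, t) ∈ E (k + 1)) := by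
  obtain ⟨_, _, gt, h⟩ := h
  rcases (h k).2.2 with hI | hS
  · generalize E (k + 1) = E' at hI h2
    generalize R (k + 1) = R' at hI
    cases hI with
    | deduce u s t _ _ => exact (h2 (Or.inr h1)).elim
    | orient s t _ _ =>
      refine ⟨s, t, ?_, Or.inl (Or.inl rfl)⟩
      by_contra hn; exact h2 ⟨h1, hn⟩
    | delete s _ =>
      refine ⟨s, s, ?_, Or.inr (Or.inl rfl)⟩
      by_contra hn; exact h2 ⟨h1, hn⟩
    | simplify s t u _ hu =>
      refine ⟨s, t, ?_, Or.inr (Or.inr ⟨u, hu, Or.inl rfl⟩)⟩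
      by_contra hn; exact h2 (Or.inr ⟨h1, hn⟩)
    | compose s t u _ _ => exact (h2 h1).elim
    | collapse s t u l r _ _ _ _ => exact (h2 (Or.inr h1)).elim
  · rw [(hS (k + 1) (Nat.le_succ k)).1] at h2
    exact (h2 h1).elim

/-- how a rule disappears -/
theorem IsRun.rule_out (h : IsRun E R) {k : ℕ} {s t : Tm ar} (h1 : (s, t) ∈ R k)
    (h2 : (s, t) ∉ R (k + 1)) :
    (∃ u, Rew (R k) t u ∧ (s, u) ∈ R (k + 1)) ∨
      ∃ u l r, (l, r) ∈ R k ∧ Rew {(l, r)} s u ∧ ¬ Encomp l s ∧ s(u, t) ∈ E (k + 1) := by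
  obtain ⟨_, _, gt, h⟩ := h
  rcases (h k).2.2 with hI | hS
  · generalize E (k + 1) = E' at hI
    generalize R (k + 1) = R' at hI h2
    cases hI with
    | deduce u s t _ _ => exact (h2 h1).elim
    | orient s t _ _ => exact (h2 (Or.inr h1)).elim
    | delete s _ => exact (h2 h1).elim
    | simplify s t u _ hu => exact (h2 h1).elim
    | compose s' t' u _ hu =>
      have e : (s, t) = (s', t') := by by_contra hn; exact h2 (Or.inr ⟨h1, hn⟩)
      obtain ⟨rfl, rfl⟩ := Prod.mk.inj e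
      exact Or.inl ⟨u, hu, Or.inl rfl⟩
    | collapse s' t' u l r _ a b c =>
      have e : (s, t) = (s', t') := by by_contra hn; exact h2 ⟨h1, hn⟩
      obtain ⟨rfl, rfl⟩ := Prod.mk.inj e
      exact Or.inr ⟨u, l, r, a, b, c, Or.inl rfl⟩
  · rw [(hS (k + 1) (Nat.le_succ k)).2] at h2
    exact (h2 h1).elim

end run

end KBC
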