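import Pool.Agent.P.MP_14079b_lc.Sim

set_option autoImplicit false

namespace KBC

variable {F : Type} {ar : F → ℕ}

def cf (M i : ℕ) : ℕ := if i = 0 then M else 1

/-- linear interpretation with coefficient `M` on the first argument -/
def ev (M : ℕ) : Tm ar → ℕ
  | .var _ => 0
  | .app _ a => 1 + ∑ i, cf M i.1 * ev M (a i)

theorem ev_fill {M : ℕ} (hM : 0 < M) (C : Ctx ar) :
    ∃ c m, 0 < m ∧ ∀ u, ev M (C.fill u) = c + m * ev M u := by
  induction C with
  | hole => exact ⟨0, 1, one_pos, by simp⟩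
  | app f a i C ih =>
    obtain ⟨c, m, hm, hc⟩ := ih
    refine ⟨1 + cf M i.1 * c + ∑ j ∈ Finset.univ \ {i}, cf M j.1 * ev M (a j), cf M i.1 * m,
      Nat.mul_pos (by unfold cf; split_ifs <;> omega) hm, fun u => ?_⟩
    have : (fun j : Fin (ar f) => cf M j.1 * ev M (Function.update a i (C.fill u) j)) =
        Function.update (fun j : Fin (ar f) => cf M j.1 * ev M (a j)) i
          (cf M i.1 * ev M (C.fill u)) := by
      funext j
      by_cases h : j = i
      · subst h; simp
      · simp [Function.update_of_ne h]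
    rw [fill_app, ev, this, Finset.sum_update_of_mem (Finset.mem_univ i), hc]
    ring

theorem ev_sub (M : ℕ) (σ : ℕ → Tm ar) (t : Tm ar) : ev M t ≤ ev M (t.sub σ) := by
  induction t with
  | var x => simp [ev]
  | app f a ih =>
    exact Nat.add_le_add_left (Finset.sum_le_sum (fun i _ => Nat.mul_le_mul_left _ (ih i))) _

theorem ev_ord {M : ℕ} (hM : 0 < M) :
    IsRedOrd (ar := ar) (fun s t => ∀ σ, ev M (t.sub σ) < ev M (s.sub σ)) := by
  refine ⟨fun s t u a b σ => (b σ).trans (a σ), ?_, ?_⟩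
  · exact Subrelation.wf (r := InvImage (· < ·) (ev M))
      (fun {x y} e => by have := e Tm.var; simp only [sub_id] at this; exact this)
      (InvImage.wf _ wellFounded_lt)
  · intro s t C σ h τ
    obtain ⟨c, m, hm, hc⟩ := ev_fill hM (C.sub τ)
    rw [fill_sub, fill_sub, hc, hc, sub_sub, sub_sub]
    exact Nat.add_lt_add_left (Nat.mul_lt_mul_of_pos_left (h _) hm) _

inductive Bt : Type
  | lf : Bt
  | nd : Bt → Bt → Bt
  deriving DecidableEq

def Bt.ch (l r : Bt) (i : ℕ) : Bt := if i = 0 then l else if i = 1 then r else .lf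

def emb (f : F) : Bt → Tm ar
  | .lf => .var 0
  | .nd l r => .app f (fun i => if i.1 = 0 then emb f l else if i.1 = 1 then emb f r else .var 0)

theorem emb_nd (f : F) (l r : Bt) :
    (emb f (.nd l r) : Tm ar) = .app f (fun i => emb f (Bt.ch l r i.1)) := by
  rw [emb]
  congr 1
  funext i
  unfold Bt.ch
  split_ifs <;> rfl

def Bt.val (M : ℕ) : Bt → ℕ
  | .lf => 0
  | .nd l r => 1 + M * l.val M + r.val M

def Bt.ls : Bt → ℕ
  | .lf => 0
  | .nd l _ => 1 + l.ls

def Bt.subs : Bt → List Bt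
  | .lf => []
  | .nd l r => .nd l r :: (l.subs ++ r.subs)

def Bt.psubs : Bt → List Bt
  | .lf => []
  | .nd l r => l.subs ++ r.subs

def Bt.same : Bt → Bt → Bool
  | .nd l r, .nd l' r' => decide (r.ls + l'.ls = r'.ls + l.ls)
  | _, _ => false

theorem ev_emb {f : F} {m : ℕ} (hf : ar f = m + 2) (M : ℕ) (σ : ℕ → Tm ar) (t : Bt) :
    ev M ((emb f t : Tm ar).sub σ) = t.val M * (1 + (M + m) * ev M (σ 0)) + ev M (σ 0) := by
  induction t with
  | lf => simp [emb, Bt.val]
  | nd l r a b =>
    rw [emb_nd, sub_app, ev,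
      Fin.sum_univ_eq_sum_range (fun i => cf M i * ev M ((emb f (Bt.ch l r i) : Tm ar).sub σ)), hf,
      Finset.sum_range_succ', Finset.sum_range_succ']
    simp only [cf, Bt.ch, Bt.val]
    simp [a, b, emb]
    ring

def lsp : Tm ar → ℕ
  | .var _ => 0
  | .app g a => if h : 0 < ar g then 1 + lsp (a ⟨0, h⟩) else 0

theorem lsp_emb {f : F} (hf : 2 ≤ ar f) (σ : ℕ → Tm ar) (t : Bt) :
    lsp ((emb f t : Tm ar).sub σ) = t.ls + lsp (σ 0) := by
  induction t with
  | lf => simp [emb, Bt.ls]
  | nd l r a _ =>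
    rw [emb_nd, sub_app, lsp, dif_pos (by omega)]
    simp only [Bt.ch, if_true, a, Bt.ls]
    ring

theorem emb_same {f : F} (hf : 2 ≤ ar f) {σ τ : ℕ → Tm ar} {s t : Bt} (hs : s ≠ .lf) (ht : t ≠ .lf)
    (h : (emb f s : Tm ar).sub σ = (emb f t).sub τ) : s.same t = true := by
  cases s with
  | lf => exact (hs rfl).elim
  | nd l r =>
  cases t with
  | lf => exact (ht rfl).elim
  | nd l' r' =>
    rw [emb_nd, emb_nd, sub_app, sub_app] at h
    have h0 := congrArg lsp (congrFun (app_inj h) ⟨0, by omega⟩)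
    have h1 := congrArg lsp (congrFun (app_inj h) ⟨1, by omega⟩)
    simp only [lsp_emb hf, Bt.ch] at h0 h1
    simp at h0 h1
    simp only [Bt.same, decide_eq_true_eq]
    omega

theorem psubs_sub (t s : Bt) (h : s ∈ t.psubs) : s ∈ t.subs := by
  cases t with
  | lf => exact h
  | nd l r => exact List.mem_cons_of_mem _ h

theorem emb_fill {f : F} {u : Tm ar} (hu : ∀ x, u ≠ .var x) (C : Ctx ar) : ∀ t : Bt,
    emb f t = C.fill u → C = .hole ∨ ∃ s ∈ t.psubs, u = emb f s := by
  induction C with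
  | hole => exact fun _ _ => Or.inl rfl
  | app g a i C ih =>
    intro t h
    right
    cases t with
    | lf => simp [emb] at h
    | nd l r =>
      rw [emb_nd, fill_app] at h
      obtain rfl := app_hd h
      have h1 := congrFun (app_inj h) i
      simp only [Function.update_self] at h1
      have h2 : ∃ s ∈ (Bt.ch l r i.1).subs, u = emb f s := by
        rcases ih _ h1 with rfl | ⟨s, hs, e⟩
        · refine ⟨_, ?_, h1.symm⟩
          cases e : Bt.ch l r i.1 with
          | lf => rw [e] at h1; exact (hu 0 h1.symm).elim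
          | nd _ _ => exact List.mem_cons_self
        · exact ⟨s, psubs_sub _ _ hs, e⟩
      obtain ⟨s, hs, e⟩ := h2
      refine ⟨s, ?_, e⟩
      unfold Bt.ch at hs
      split_ifs at hs
      · exact List.mem_append_left _ hs
      · exact List.mem_append_right _ hs
      · simp [Bt.subs] at hs

def comb : ℕ → Bt
  | 0 => .lf
  | n + 1 => .nd (comb n) .lf

def full : ℕ → Bt
  | 0 => .lf
  | n + 1 => .nd (full n) (full n)

def tre : Fin 5 → Bt :=
  ![.nd .lf (.nd (full 3) .lf), .nd .lf (full 3), .nd .lf (comb 2), .nd .lf (comb 5),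
    .nd .lf (comb 1)]

theorem bad_bin (f : F) (hf : 2 ≤ ar f) : Bad ar := by
  obtain ⟨m, hm⟩ : ∃ m, ar f = m + 2 := ⟨ar f - 2, by omega⟩
  have n1 : ∀ i, tre i ≠ .lf := by decide
  have n2 : ∀ i, ∀ s ∈ (tre i).psubs, s ≠ .lf ∧ ∀ j, s.same (tre j) = false := by decide
  have n3 : ∀ i j, (tre i).same (tre j) = true → i = j := by decide
  have o : ∀ (M : ℕ) (s t : Bt), t.val M < s.val M →
      ∀ σ, ev M ((emb f t : Tm ar).sub σ) < ev M ((emb f s : Tm ar).sub σ) := by
    intro M s t h σ
    rw [ev_emb hm, ev_emb hm]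
    exact Nat.add_lt_add_right (Nat.mul_lt_mul_of_pos_right h (by omega)) _
  refine pat_bad (fun i => emb f (tre i)) ?_ ?_ (ev_ord one_pos) (ev_ord two_pos)
    (fun p hp => o 1 _ _ (by revert p; decide)) (fun p hp => o 2 _ _ (by revert p; decide))
  · intro j x h
    cases e : tre j with
    | lf => exact n1 j e
    | nd l r => simp only [e, emb] at h; cases h
  · intro i j C u σ τ e nv e'
    rcases emb_fill nv C _ e with rfl | ⟨s, hs, rfl⟩
    · obtain rfl : emb f (tre i) = u := e
      exact ⟨rfl, n3 i j (emb_same hf (n1 i) (n1 j) e')⟩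
    · have := emb_same hf (n2 i s hs).1 (n1 j) e'
      rw [(n2 i s hs).2 j] at this
      cases this

end KBC
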