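import Pool.Agent.P.MP_14079b_lc.DdfEnc

set_option autoImplicit false

namespace Pool.Agent.P.MP_14079b_lc.Ddf

variable {F : Type} {ar : F → ℕ}

/-- State of an item: equation, rule whose left side is side `d`, or deleted. -/
inductive Tag : Type
  | eqn
  | rule (d : Bool)
  | gone

/-- An item: a tag and two sides. -/
structure It (F : Type) (ar : F → ℕ) : Type where
  tag : Tag
  v : Bool → Tm F ar

/-- A genuine change of the item `ι` when the family of items goes from `L` to `L'`. -/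
inductive Chg {I : Type} (L L' : I → It F ar) (ι : I) : Prop
  | orient (d : Bool) : (L ι).tag = .eqn → (L' ι).tag = .rule d → (L' ι).v = (L ι).v →
      Chg L L' ι
  | delete : (L ι).tag = .eqn → (L' ι).tag = .gone → (L' ι).v = (L ι).v → Chg L L' ι
  | rewrite (b : Bool) (κ : I) (d : Bool) : (L κ).tag = .rule d →
      Rew {((L κ).v d, (L κ).v (!d))} ((L ι).v b) ((L' ι).v b) →
      (L' ι).v (!b) = (L ι).v (!b) →
      (((L ι).tag = .eqn ∧ (L' ι).tag = .eqn) ∨
        ((L ι).tag = .rule (!b) ∧ (L' ι).tag = .rule (!b)) ∨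
        ((L ι).tag = .rule b ∧ (L' ι).tag = .eqn ∧ L' κ = L κ)) → Chg L L' ι

theorem exists_bound {J : Type} [Finite J] (P : J → ℕ → Prop) (h : ∀ j, ∃ N, ∀ n, N ≤ n → P j n) :
    ∃ N, ∀ j n, N ≤ n → P j n := by
  classical
  choose f hf using h
  have := Fintype.ofFinite J
  exact ⟨Finset.univ.sup f, fun j n hn =>
    hf j n ((Finset.le_sup (f := f) (Finset.mem_univ j)).trans hn)⟩

section core

variable {I : Type} (L : ℕ → I → It F ar) (gt : ℕ → Tm F ar → Tm F ar → Prop)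

/-- Side `b` of item `ι` is rewritten infinitely often. -/
def Live (ι : I) (b : Bool) : Prop := ∀ N, ∃ n, N ≤ n ∧ (L (n + 1) ι).v b ≠ (L n ι).v b

variable {L gt}

theorem rew_gt (hg : ∀ n, RedOrd (gt n))
    (hR : ∀ n ι d, (L n ι).tag = .rule d → gt n ((L n ι).v d) ((L n ι).v (!d)))
    {n : ℕ} {κ : I} {d : Bool} (hκ : (L n κ).tag = .rule d) {s u : Tm F ar}
    (h : Rew {((L n κ).v d, (L n κ).v (!d))} s u) : gt n s u :=
  h.gt_of (hg n) (by
    intro p hp
    rw [Set.mem_singleton_iff.1 hp]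
    exact hR n κ d hκ)

theorem rew_ne (hg : ∀ n, RedOrd (gt n))
    (hR : ∀ n ι d, (L n ι).tag = .rule d → gt n ((L n ι).v d) ((L n ι).v (!d)))
    {n : ℕ} {κ : I} {d : Bool} (hκ : (L n κ).tag = .rule d) {s u : Tm F ar}
    (h : Rew {((L n κ).v d, (L n κ).v (!d))} s u) : u ≠ s := by
  intro hus
  have := rew_gt hg hR hκ h
  rw [hus] at this
  exact (hg n).irrefl' _ this

/-- What can happen to an item that is a rule. -/
theorem rule_cases (hg : ∀ n, RedOrd (gt n))
    (hR : ∀ n ι d, (L n ι).tag = .rule d → gt n ((L n ι).v d) ((L n ι).v (!d)))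
    (h1 : ∀ n ι, L (n + 1) ι = L n ι ∨ Chg (L n) (L (n + 1)) ι)
    {n : ℕ} {ι : I} {b : Bool} (ht : (L n ι).tag = .rule b) :
    L (n + 1) ι = L n ι ∨
    ((L (n + 1) ι).tag = .rule b ∧ (L (n + 1) ι).v b = (L n ι).v b ∧
      (L (n + 1) ι).v (!b) ≠ (L n ι).v (!b)) ∨
    ((L (n + 1) ι).v b ≠ (L n ι).v b ∧ ∃ κ d, (L n κ).tag = .rule d ∧ L (n + 1) κ = L n κ ∧
      Rew {((L n κ).v d, (L n κ).v (!d))} ((L n ι).v b) ((L (n + 1) ι).v b)) := by
  rcases h1 n ι with h | h
  · exact Or.inl h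
  · right
    rcases h with ⟨d, h, -, -⟩ | ⟨h, -, -⟩ | ⟨b', κ, d, hκ, hr, hs, h⟩
    · rw [ht] at h; cases h
    · rw [ht] at h; cases h
    · rcases h with ⟨h, -⟩ | ⟨h, h'⟩ | ⟨h, -, h'⟩
      · rw [ht] at h; cases h
      · rw [ht] at h
        have hb : b = !b' := Tag.rule.inj h
        subst hb
        refine Or.inl ⟨h', hs, ?_⟩
        rw [Bool.not_not]
        exact rew_ne hg hR hκ hr
      · rw [ht] at h
        have hb : b = b' := Tag.rule.inj h
        subst hb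
        exact Or.inr ⟨rew_ne hg hR hκ hr, κ, d, hκ, h', hr⟩

theorem next_change {ι : I} {b : Bool} (hl : Live L ι b) (n : ℕ) :
    ∃ m, n ≤ m ∧ (L m ι).v b = (L n ι).v b ∧ (L (m + 1) ι).v b ≠ (L m ι).v b := by
  classical
  have hex : ∃ k, (L (n + k + 1) ι).v b ≠ (L (n + k) ι).v b := by
    obtain ⟨m, hm, h⟩ := hl n
    obtain ⟨k, rfl⟩ := Nat.exists_eq_add_of_le hm
    exact ⟨k, h⟩
  have key : ∀ k, k ≤ Nat.find hex → (L (n + k) ι).v b = (L n ι).v b := by
    intro k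
    induction k with
    | zero => intro _; rfl
    | succ k ih =>
      intro hk
      have h4 : (L (n + k + 1) ι).v b = (L (n + k) ι).v b :=
        not_not.1 (Nat.find_min hex (m := k) (by omega))
      exact h4.trans (ih (by omega))
  exact ⟨n + Nat.find hex, by omega, key _ le_rfl, Nat.find_spec hex⟩

theorem change_rule
    (h1 : ∀ n ι, L (n + 1) ι = L n ι ∨ Chg (L n) (L (n + 1)) ι)
    {m : ℕ} {ι : I} {b : Bool} (h : (L (m + 1) ι).v b ≠ (L m ι).v b) :
    ∃ κ d, (L m κ).tag = .rule d ∧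
      Rew {((L m κ).v d, (L m κ).v (!d))} ((L m ι).v b) ((L (m + 1) ι).v b) := by
  rcases h1 m ι with h2 | h2
  · rw [h2] at h; exact absurd rfl h
  · rcases h2 with ⟨d, -, -, h2⟩ | ⟨-, -, h2⟩ | ⟨b', κ, d, hκ, hr, hs, -⟩
    · rw [h2] at h; exact absurd rfl h
    · rw [h2] at h; exact absurd rfl h
    · have hb : b' = b := by
        by_contra hb
        have : b = !b' := by cases b <;> cases b' <;> simp_all
        subst this
        exact h hs
      subst hb
      exact ⟨κ, d, hκ, hr⟩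

theorem no_live [Finite I] (hg : ∀ n, RedOrd (gt n))
    (hR : ∀ n ι d, (L n ι).tag = .rule d → gt n ((L n ι).v d) ((L n ι).v (!d)))
    (h1 : ∀ n ι, L (n + 1) ι = L n ι ∨ Chg (L n) (L (n + 1)) ι)
    (ι : I) (b : Bool) : ¬ Live L ι b := by
  classical
  obtain ⟨T, hT0⟩ := exists_bound (J := I × Bool)
    (fun j n => ¬ Live L j.1 j.2 → (L (n + 1) j.1).v j.2 = (L n j.1).v j.2) (by
      intro j
      by_cases hj : Live L j.1 j.2
      · exact ⟨0, fun n _ h => absurd hj h⟩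
      · have hj' := hj
        simp only [Live, not_forall, not_exists, not_and, not_not] at hj'
        obtain ⟨N, hN⟩ := hj'
        exact ⟨N, fun n hn _ => hN n hn⟩)
  have hT : ∀ κ d, ¬ Live L κ d → ∀ n, T ≤ n → (L n κ).v d = (L T κ).v d := by
    intro κ d hd n hn
    induction n, hn using Nat.le_induction with
    | base => rfl
    | succ n hn ih => exact (hT0 (κ, d) n hn hd).trans ih
  have hlive : ∀ κ d n, T ≤ n → (L (n + 1) κ).v d ≠ (L n κ).v d → Live L κ d := by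
    intro κ d n hn h
    by_contra hd
    exact h (hT0 (κ, d) n hn hd)
  obtain ⟨T0, hT1⟩ := exists_bound (J := I × Bool)
    (fun j n => (¬ Live L j.1 j.2 ∧ ∃ m, T ≤ m ∧ (L m j.1).tag = .rule j.2) →
      (L n j.1).tag = .rule j.2) (by
      intro j
      by_cases hj : ¬ Live L j.1 j.2 ∧ ∃ m, T ≤ m ∧ (L m j.1).tag = .rule j.2
      · obtain ⟨hd, m, hm, ht⟩ := hj
        refine ⟨m, fun n hn _ => ?_⟩
        induction n, hn using Nat.le_induction with
        | base => exact ht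
        | succ n hn ih =>
          rcases rule_cases hg hR h1 ih with h | ⟨h, -, -⟩ | ⟨h, -⟩
          · rw [h]; exact ih
          · exact h
          · exact absurd (hlive _ _ n (by omega) h) hd
      · exact ⟨0, fun n _ h => absurd h hj⟩)
  let S := max T T0
  have hS1 : T ≤ S := le_max_left _ _
  have hS2 : T0 ≤ S := le_max_right _ _
  let G : Tm F ar → Prop := fun u => ∃ n κ d, T ≤ n ∧ Live L κ d ∧ (L n κ).v d = u
  let D : ℕ → Tm F ar → Prop := fun n l => ∃ κ d x w, (L n κ).tag = .rule d ∧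
    Rew {((L n κ).v d, (L n κ).v (!d))} l x ∧ Enc x w ∧ G w
  have hDup : ∀ n l l', Enc l' l → D n l → D n l' := by
    rintro n l l' h ⟨κ, d, x, w, h2, h3, h4, h5⟩
    obtain ⟨y, h6, h7⟩ := h.rew_comm h3
    exact ⟨κ, d, y, w, h2, h6, h7.trans' h4, h5⟩
  have hDrhs : ∀ n κ d, T ≤ n → (L n κ).tag = .rule d → Live L κ (!d) → D n ((L n κ).v d) :=
    fun n κ d hn ht hl => ⟨κ, d, _, _, ht, Rew.self _ _, Enc.refl' _, n, κ, !d, hn, hl, rfl⟩
  have hDstep : ∀ n l, T ≤ n → D n l → D (n + 1) l := by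
    rintro n l hn ⟨κ, d, x, w, h2, h3, h4, h5⟩
    rcases rule_cases hg hR h1 h2 with h | ⟨h, h', h''⟩ | ⟨h, κ', d', hκ, he, hr⟩
    · exact ⟨κ, d, x, w, by rw [h]; exact h2, by rw [h]; exact h3, h4, h5⟩
    · refine hDup _ _ _ ?_ (hDrhs (n + 1) κ d (by omega) h (hlive _ _ n hn h''))
      rw [h']
      exact h3.enc
    · refine hDup _ _ _ h3.enc ⟨κ', d', _, _, by rw [he]; exact hκ, by rw [he]; exact hr,
        Enc.refl' _, n + 1, κ, d, by omega, hlive _ _ n hn h, rfl⟩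
  have hDm : ∀ n n' l, T ≤ n → n ≤ n' → D n l → D n' l := by
    intro n n' l hn h h2
    induction n', h using Nat.le_induction with
    | base => exact h2
    | succ k hk ih => exact hDstep k l (by omega) ih
  have hdead : ∀ m κ d l x, T ≤ m → (L m κ).tag = .rule d → ¬ Live L κ d → ¬ Live L κ (!d) →
      Rew {((L m κ).v d, (L m κ).v (!d))} l x → G x → D S l := by
    intro m κ d l x hm ht hd1 hd2 hr hx
    refine ⟨κ, d, x, x, hT1 (κ, d) S hS2 ⟨hd1, m, hm, ht⟩, ?_, Enc.refl' _, hx⟩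
    rw [(hT κ d hd1 S hS1).trans (hT κ d hd1 m hm).symm,
      (hT κ _ hd2 S hS1).trans (hT κ _ hd2 m hm).symm]
    exact hr
  have hGnext : ∀ u, G u → ∃ m κ d x, T ≤ m ∧ (L m κ).tag = .rule d ∧
      Rew {((L m κ).v d, (L m κ).v (!d))} u x ∧ G x := by
    rintro u ⟨n, κ, d, hn, hl, rfl⟩
    obtain ⟨m, hm, he, hc⟩ := next_change hl n
    obtain ⟨κ', d', hκ, hr⟩ := change_rule h1 hc
    rw [he] at hr
    exact ⟨m, κ', d', _, by omega, hκ, hr, m + 1, κ, d, by omega, hl, rfl⟩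
  let ok : ℕ → I × Bool → Prop := fun t j =>
    (L (T + t) j.1).tag = .rule j.2 ∧ (Live L j.1 j.2 ∨ Live L j.1 (!j.2))
  let A : ℕ → Tm F ar → Prop := fun t l =>
    D S l ∨ ∃ j : I × Bool, ok t j ∧ Enc l ((L (T + t) j.1).v j.2)
  have hAuse : ∀ t κ d l x l', (L (T + t) κ).tag = .rule d →
      Rew {((L (T + t) κ).v d, (L (T + t) κ).v (!d))} l x → G x → Enc l' l → A t l' := by
    intro t κ d l x l' ht hr hx he
    by_cases hl : Live L κ d ∨ Live L κ (!d)
    · exact Or.inr ⟨(κ, d), ⟨ht, hl⟩, he.trans' hr.enc⟩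
    · rw [not_or] at hl
      exact Or.inl (hDup _ _ _ he (hdead (T + t) κ d l x (by omega) ht hl.1 hl.2 hr hx))
  have hAmono : ∀ t l, A t l → A (t + 1) l := by
    rintro t l (h | ⟨⟨κ, d⟩, ⟨ht, hl⟩, he⟩)
    · exact Or.inl h
    · rcases rule_cases hg hR h1 ht with h | ⟨h, h', -⟩ | ⟨h, κ', d', hκ, he', hr⟩
      · refine Or.inr ⟨(κ, d), ⟨?_, hl⟩, ?_⟩
        · show (L (T + t + 1) κ).tag = _
          rw [h]; exact ht
        · show Enc l ((L (T + t + 1) κ).v d)
          rw [h]; exact he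
      · refine Or.inr ⟨(κ, d), ⟨h, hl⟩, ?_⟩
        show Enc l ((L (T + t + 1) κ).v d)
        rw [h']; exact he
      · refine hAuse (t + 1) κ' d' ((L (T + t) κ).v d) ((L (T + t + 1) κ).v d) l ?_ ?_
          ⟨T + t + 1, κ, d, by omega, hlive _ _ _ (by omega) h, rfl⟩ he
        · show (L (T + t + 1) κ').tag = _
          rw [he']; exact hκ
        · show Rew {((L (T + t + 1) κ').v d', (L (T + t + 1) κ').v (!d'))} _ _
          rw [he']; exact hr
  obtain ⟨t, ht⟩ := stabilize (J := I × Bool) (D S) (fun t j => (L (T + t) j.1).v j.2) ok A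
    (fun _ _ => Iff.rfl) (hDup S) hAmono
  obtain ⟨s0, hs0⟩ := exists_bound (J := I × Bool)
    (fun j s => ok t j → D s ((L (T + t) j.1).v j.2)) (by
      intro j
      by_cases hj : ok t j
      · obtain ⟨h2, h3 | h3⟩ := hj
        · obtain ⟨m, κ, d, x, hm, hκ, hr, hx⟩ := hGnext _ ⟨T + t, j.1, j.2, by omega, h3, rfl⟩
          exact ⟨m, fun n hn _ => hDm m n _ hm hn ⟨κ, d, x, x, hκ, hr, Enc.refl' _, hx⟩⟩
        · exact ⟨T + t, fun n hn _ =>
            hDm (T + t) n _ (by omega) hn (hDrhs _ _ _ (by omega) h2 h3)⟩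
      · exact ⟨0, fun n _ h => absurd h hj⟩)
  have hC : ∀ u, G u → ∃ w, Big (gt (max S s0)) u w ∧ G w := by
    intro u hu
    obtain ⟨m, κ, d, x, hm, hκ, hr, hx⟩ := hGnext u hu
    obtain ⟨k, rfl⟩ := Nat.exists_eq_add_of_le hm
    have h2 : D (max S s0) u := by
      rcases ht k u (hAuse k κ d u x u hκ hr hx (Enc.refl' u)) with h | ⟨j, h, he⟩
      · exact hDm S _ u hS1 (le_max_left _ _) h
      · exact hDup _ _ _ he (hs0 j _ (le_max_right _ _) h)
    obtain ⟨κ', d', y, w, h3, h4, h5, h6⟩ := h2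
    exact ⟨w, ⟨y, rew_gt hg hR h3 h4, h5⟩, h6⟩
  have hD : ∀ u, ¬ G u := by
    intro u
    induction u using (big_wf (hg (max S s0))).induction with
    | _ u ih =>
      intro hu
      obtain ⟨w, h2, h3⟩ := hC u hu
      exact ih w h2 h3
  intro hl
  exact hD _ ⟨T, ι, b, le_rfl, hl, rfl⟩

theorem core [Finite I] (hg : ∀ n, RedOrd (gt n))
    (hR : ∀ n ι d, (L n ι).tag = .rule d → gt n ((L n ι).v d) ((L n ι).v (!d)))
    (h1 : ∀ n ι, L (n + 1) ι = L n ι ∨ Chg (L n) (L (n + 1)) ι) :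
    ∃ M, ∀ n, M ≤ n → ∀ ι, ¬ Chg (L n) (L (n + 1)) ι := by
  classical
  obtain ⟨T, hT⟩ := exists_bound (J := I × Bool)
    (fun j n => (L (n + 1) j.1).v j.2 = (L n j.1).v j.2) (by
      intro j
      have hj := no_live hg hR h1 j.1 j.2
      simp only [Live, not_forall, not_exists, not_and, not_not] at hj
      exact hj)
  have hchg : ∀ n ι, T ≤ n → Chg (L n) (L (n + 1)) ι →
      (L n ι).tag = .eqn ∧ (L (n + 1) ι).tag ≠ .eqn := by
    intro n ι hn h
    rcases h with ⟨d, h, h', -⟩ | ⟨h, h', -⟩ | ⟨b', κ, d, hκ, hr, -, -⟩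
    · exact ⟨h, by rw [h']; intro hh; cases hh⟩
    · exact ⟨h, by rw [h']; intro hh; cases hh⟩
    · exact absurd (hT (ι, b') n hn) (rew_ne hg hR hκ hr)
  obtain ⟨M, hM⟩ := exists_bound (J := I) (fun ι n => ¬ Chg (L n) (L (n + 1)) ι) (by
    intro ι
    by_cases h : ∃ m, T ≤ m ∧ Chg (L m) (L (m + 1)) ι
    · obtain ⟨m, hm, h⟩ := h
      have key : ∀ n, m + 1 ≤ n → (L n ι).tag ≠ .eqn := by
        intro n hn
        induction n, hn using Nat.le_induction with
        | base => exact (hchg m ι hm h).2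
        | succ n hn ih =>
          rcases h1 n ι with h2 | h2
          · rw [h2]; exact ih
          · exact (hchg n ι (by omega) h2).2
      exact ⟨m + 1, fun n hn h2 => key n hn (hchg n ι (by omega) h2).1⟩
    · exact ⟨T, fun n hn h2 => h ⟨n, hn, h2⟩⟩)
  exact ⟨M, fun n hn ι => hM ι n hn⟩

end core

end Pool.Agent.P.MP_14079b_lc.Ddf
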