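import Mathlib

set_option autoImplicit false

namespace Pool.Agent.P.MP_14079b_lc.Ddf

/-- First-order terms over a signature `F` with arities `ar` and variables indexed by `ℕ`. -/
inductive Tm (F : Type) (ar : F → ℕ) : Type
  | var : ℕ → Tm F ar
  | app : (f : F) → (Fin (ar f) → Tm F ar) → Tm F ar

variable {F : Type} {ar : F → ℕ}

/-- Applying a substitution. -/
def Tm.subst (σ : ℕ → Tm F ar) : Tm F ar → Tm F ar
  | .var x => σ x
  | .app f ts => .app f fun i => (ts i).subst σ

/-- The one-step rewrite relation generated by a set `R` of rules. -/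
inductive Rew (R : Set (Tm F ar × Tm F ar)) : Tm F ar → Tm F ar → Prop
  | root (l r : Tm F ar) (σ : ℕ → Tm F ar) : (l, r) ∈ R → Rew R (l.subst σ) (r.subst σ)
  | arg (f : F) (ts : Fin (ar f) → Tm F ar) (i : Fin (ar f)) (u : Tm F ar) :
      Rew R (ts i) u → Rew R (.app f ts) (.app f (Function.update ts i u))

/-- `gt` is a reduction ordering: a well-founded strict ordering closed under contexts and
substitutions. -/
structure RedOrd (gt : Tm F ar → Tm F ar → Prop) : Prop where
  wf : WellFounded fun a b => gt b a
  trans : ∀ a b c, gt a b → gt b c → gt a c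
  ctx : ∀ (f : F) (ts : Fin (ar f) → Tm F ar) (i : Fin (ar f)) (a b : Tm F ar), gt a b →
    gt (.app f (Function.update ts i a)) (.app f (Function.update ts i b))
  sub : ∀ (σ : ℕ → Tm F ar) (a b : Tm F ar), gt a b → gt (a.subst σ) (b.subst σ)

/-- The names of the six completion rules. -/
inductive Kind : Type
  | deduce | orient | delete | simplify | compose | collapse

/-- One completion step relative to the ordering `gt`, with the name of the rule used.
Equations are unordered pairs, rules are ordered pairs. Collapse may use any rule other than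
the collapsed one; this contains the version that asks for proper encompassment. -/
inductive Step (gt : Tm F ar → Tm F ar → Prop) (E : Set (Sym2 (Tm F ar)))
    (R : Set (Tm F ar × Tm F ar)) :
    Kind → Set (Sym2 (Tm F ar)) → Set (Tm F ar × Tm F ar) → Prop
  | deduce (s t u : Tm F ar) : Rew R u s → Rew R u t →
      Step gt E R .deduce (insert s(s, t) E) R
  | orient (s t : Tm F ar) : s(s, t) ∈ E → gt s t →
      Step gt E R .orient (E \ {s(s, t)}) (insert (s, t) R)
  | delete (s : Tm F ar) : s(s, s) ∈ E →
      Step gt E R .delete (E \ {s(s, s)}) R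
  | simplify (s t u : Tm F ar) : s(s, t) ∈ E → Rew R s u →
      Step gt E R .simplify (insert s(u, t) (E \ {s(s, t)})) R
  | compose (s t u : Tm F ar) : (s, t) ∈ R → Rew R t u →
      Step gt E R .compose E (insert (s, u) (R \ {(s, t)}))
  | collapse (s t u : Tm F ar) : (s, t) ∈ R → Rew (R \ {(s, t)}) s u →
      Step gt E R .collapse (insert s(u, t) E) (R \ {(s, t)})

end Pool.Agent.P.MP_14079b_lc.Ddf
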