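import Pool.Agent.P.MP_14079b_lc.DdfDefs

set_option autoImplicit false

namespace Pool.Agent.P.MP_14079b_lc.Ddf

variable {F : Type} {ar : F → ℕ}

/-- `Subterm u s`: the term `u` is a subterm of `s` (possibly `s` itself). -/
inductive Subterm (u : Tm F ar) : Tm F ar → Prop
  | refl : Subterm u u
  | arg (f : F) (ts : Fin (ar f) → Tm F ar) (i : Fin (ar f)) :
      Subterm u (ts i) → Subterm u (.app f ts)

/-- `s` encompasses `l`: some instance of `l` is a subterm of `s`. -/
def Enc (s l : Tm F ar) : Prop := ∃ σ : ℕ → Tm F ar, Subterm (l.subst σ) s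

/-- `s` properly encompasses `l`. -/
def PEnc (s l : Tm F ar) : Prop := Enc s l ∧ ¬ Enc l s

theorem subst_subst (σ τ : ℕ → Tm F ar) (t : Tm F ar) :
    (t.subst σ).subst τ = t.subst fun x => (σ x).subst τ := by
  induction t with
  | var x => rfl
  | app f ts ih => simp only [Tm.subst, ih]

theorem subst_var (t : Tm F ar) : t.subst Tm.var = t := by
  induction t with
  | var x => rfl
  | app f ts ih => simp only [Tm.subst, ih]

theorem Subterm.trans' {a b c : Tm F ar} (h1 : Subterm a b) (h2 : Subterm b c) : Subterm a c := by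
  induction h2 with
  | refl => exact h1
  | arg f ts i _ ih => exact Subterm.arg f ts i ih

theorem Subterm.subst' {a b : Tm F ar} (σ : ℕ → Tm F ar) (h : Subterm a b) :
    Subterm (a.subst σ) (b.subst σ) := by
  induction h with
  | refl => exact Subterm.refl
  | arg f ts i _ ih => exact Subterm.arg f (fun i => (ts i).subst σ) i ih

theorem Enc.refl' (s : Tm F ar) : Enc s s := ⟨Tm.var, by rw [subst_var]; exact Subterm.refl⟩

theorem Enc.trans' {a b c : Tm F ar} (h1 : Enc a b) (h2 : Enc b c) : Enc a c := by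
  obtain ⟨σ, h1⟩ := h1
  obtain ⟨τ, h2⟩ := h2
  refine ⟨fun x => (τ x).subst σ, ?_⟩
  rw [← subst_subst]
  exact (h2.subst' σ).trans' h1

theorem Rew.gt_of {gt : Tm F ar → Tm F ar → Prop} (hg : RedOrd gt) {R : Set (Tm F ar × Tm F ar)}
    (hR : ∀ p ∈ R, gt p.1 p.2) {s u : Tm F ar} (h : Rew R s u) : gt s u := by
  induction h with
  | root l r σ h => exact hg.sub σ l r (hR _ h)
  | arg f ts i u _ ih =>
    have := hg.ctx f ts i _ _ ih
    rwa [Function.update_eq_self] at this

theorem Rew.exists_rule {R : Set (Tm F ar × Tm F ar)} {s u : Tm F ar} (h : Rew R s u) :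
    ∃ l r, (l, r) ∈ R ∧ Rew {(l, r)} s u := by
  induction h with
  | root l r σ h => exact ⟨l, r, h, Rew.root l r σ rfl⟩
  | arg f ts i u _ ih =>
    obtain ⟨l, r, h1, h2⟩ := ih
    exact ⟨l, r, h1, Rew.arg f ts i u h2⟩

theorem Rew.enc {l r s u : Tm F ar} (h : Rew {(l, r)} s u) : Enc s l := by
  induction h with
  | root l' r' σ h =>
    have : l' = l := (Prod.mk.inj (Set.mem_singleton_iff.1 h)).1
    subst this
    exact ⟨σ, Subterm.refl⟩
  | arg f ts i u _ ih =>
    obtain ⟨σ, h⟩ := ih
    exact ⟨σ, Subterm.arg f ts i h⟩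

theorem RedOrd.irrefl' {gt : Tm F ar → Tm F ar → Prop} (hg : RedOrd gt) (a : Tm F ar) :
    ¬ gt a a := fun h => hg.wf.asymmetric a a h h

theorem Subterm.comm {gt : Tm F ar → Tm F ar → Prop} (hg : RedOrd gt) {a b s : Tm F ar}
    (h : Subterm a s) (hab : gt a b) : ∃ x, gt s x ∧ Subterm b x := by
  induction h with
  | refl => exact ⟨b, hab, Subterm.refl⟩
  | arg f ts i _ ih =>
    obtain ⟨x, h1, h2⟩ := ih
    refine ⟨.app f (Function.update ts i x), ?_, Subterm.arg f _ i (by simpa using h2)⟩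
    have := hg.ctx f ts i _ _ h1
    rwa [Function.update_eq_self] at this

theorem Enc.comm {gt : Tm F ar → Tm F ar → Prop} (hg : RedOrd gt) {s l w : Tm F ar}
    (h : Enc s l) (hw : gt l w) : ∃ x, gt s x ∧ Enc x w := by
  obtain ⟨σ, h⟩ := h
  obtain ⟨x, h1, h2⟩ := h.comm hg (hg.sub σ _ _ hw)
  exact ⟨x, h1, σ, h2⟩

/-- Number of nodes of a term. -/
def Tm.size : Tm F ar → ℕ
  | .var _ => 1
  | .app _ ts => 1 + ∑ i, (ts i).size

/-- Variables of a term. -/
def Tm.vars : Tm F ar → Finset ℕ
  | .var x => {x}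
  | .app _ ts => Finset.univ.biUnion fun i => (ts i).vars

theorem size_pos (t : Tm F ar) : 1 ≤ t.size := by
  cases t with
  | var x => simp [Tm.size]
  | app f ts => simp [Tm.size]

theorem card_vars_le (t : Tm F ar) : t.vars.card ≤ t.size := by
  induction t with
  | var x => simp [Tm.size, Tm.vars]
  | app f ts ih =>
    simp only [Tm.size, Tm.vars]
    have h1 := Finset.card_biUnion_le (s := Finset.univ) (t := fun i => (ts i).vars)
    have h2 : ∑ i, (ts i).vars.card ≤ ∑ i, (ts i).size := Finset.sum_le_sum fun i _ => ih i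
    omega

theorem Subterm.eq_or_lt {u s : Tm F ar} (h : Subterm u s) : u = s ∨ u.size < s.size := by
  induction h with
  | refl => exact Or.inl rfl
  | arg f ts i _ ih =>
    right
    have h2 : (ts i).size ≤ ∑ j, (ts j).size :=
      Finset.single_le_sum (f := fun j => (ts j).size) (fun j _ => Nat.zero_le _)
        (Finset.mem_univ i)
    simp only [Tm.size]
    rcases ih with h | h
    · rw [h]; omega
    · omega

theorem size_le_subst (σ : ℕ → Tm F ar) (t : Tm F ar) : t.size ≤ (t.subst σ).size := by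
  induction t with
  | var x => exact size_pos _
  | app f ts ih =>
    simp only [Tm.size, Tm.subst]
    have : ∑ i, (ts i).size ≤ ∑ i, ((ts i).subst σ).size := Finset.sum_le_sum fun i _ => ih i
    omega

theorem size_one_of_eq (σ : ℕ → Tm F ar) (t : Tm F ar) (h : (t.subst σ).size = t.size) :
    ∀ x ∈ t.vars, (σ x).size = 1 := by
  induction t with
  | var x =>
    intro y hy
    simp only [Tm.vars, Finset.mem_singleton] at hy
    subst hy
    exact h
  | app f ts ih =>
    simp only [Tm.size, Tm.subst] at h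
    have h1 : ∑ i, (ts i).size = ∑ i, ((ts i).subst σ).size := by omega
    have h2 := (Finset.sum_eq_sum_iff_of_le (s := Finset.univ) (f := fun i => (ts i).size)
      (g := fun i => ((ts i).subst σ).size) (fun i _ => size_le_subst σ (ts i))).1 h1
    intro x hx
    simp only [Tm.vars, Finset.mem_biUnion, Finset.mem_univ, true_and] at hx
    obtain ⟨i, hi⟩ := hx
    exact ih i (h2 i (Finset.mem_univ i)).symm x hi

theorem size_one_cases (t : Tm F ar) (h : t.size = 1) : (∃ y, t = .var y) ∨ t.vars = ∅ := by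
  cases t with
  | var y => exact Or.inl ⟨y, rfl⟩
  | app f ts =>
    right
    simp only [Tm.size] at h
    ext x
    simp only [Tm.vars, Finset.mem_biUnion, Finset.mem_univ, true_and, Finset.notMem_empty,
      iff_false, not_exists]
    intro i _
    have h2 : (ts i).size ≤ ∑ j, (ts j).size :=
      Finset.single_le_sum (f := fun j => (ts j).size) (fun j _ => Nat.zero_le _)
        (Finset.mem_univ i)
    have := size_pos (ts i)
    omega

theorem mem_vars_subst (σ : ℕ → Tm F ar) (t : Tm F ar) (y : ℕ) (h : y ∈ (t.subst σ).vars) :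
    ∃ x ∈ t.vars, y ∈ (σ x).vars := by
  induction t with
  | var x => exact ⟨x, by simp [Tm.vars], h⟩
  | app f ts ih =>
    simp only [Tm.subst, Tm.vars, Finset.mem_biUnion, Finset.mem_univ, true_and] at h ⊢
    obtain ⟨i, hi⟩ := h
    obtain ⟨x, hx, hy⟩ := ih i hi
    exact ⟨x, ⟨i, hx⟩, hy⟩

theorem subst_congr (σ τ : ℕ → Tm F ar) (t : Tm F ar) (h : ∀ x ∈ t.vars, σ x = τ x) :
    t.subst σ = t.subst τ := by
  induction t with
  | var x => exact h x (by simp [Tm.vars])
  | app f ts ih =>
    simp only [Tm.subst]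
    congr 1
    funext i
    refine ih i fun x hx => h x ?_
    simp only [Tm.vars, Finset.mem_biUnion, Finset.mem_univ, true_and]
    exact ⟨i, hx⟩

theorem enc_back (σ : ℕ → Tm F ar) (t : Tm F ar) (h : (t.subst σ).size = t.size)
    (hc : t.vars.card ≤ (t.subst σ).vars.card) : Enc t (t.subst σ) := by
  classical
  let g : ℕ → ℕ := fun x => if hx : ∃ y, σ x = .var y then hx.choose else 0
  have hg : ∀ x y, σ x = .var y → g x = y := by
    intro x y hxy
    have hx : ∃ y, σ x = .var y := ⟨y, hxy⟩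
    have h1 := hx.choose_spec
    have h2 : g x = hx.choose := by simp only [g, dif_pos hx]
    rw [h2]
    exact Tm.var.inj (h1.symm.trans hxy)
  let A : Finset ℕ := t.vars.filter fun x => ∃ y, σ x = .var y
  have h1 : (t.subst σ).vars ⊆ A.image g := by
    intro y hy
    obtain ⟨x, hx, hyx⟩ := mem_vars_subst σ t y hy
    rcases size_one_cases _ (size_one_of_eq σ t h x hx) with ⟨z, hz⟩ | h0
    · rw [hz] at hyx
      simp only [Tm.vars, Finset.mem_singleton] at hyx
      subst hyx
      exact Finset.mem_image.2 ⟨x, Finset.mem_filter.2 ⟨hx, y, hz⟩, hg x y hz⟩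
    · rw [h0] at hyx
      exact absurd hyx (Finset.notMem_empty y)
  have h2 := Finset.card_le_card h1
  have h3 : (A.image g).card ≤ A.card := Finset.card_image_le
  have h4 : A ⊆ t.vars := Finset.filter_subset _ _
  have h5 := Finset.card_le_card h4
  have hA : A = t.vars := Finset.eq_of_subset_of_card_le h4 (by omega)
  have hinj : Set.InjOn g (A : Set ℕ) := Finset.card_image_iff.1 (by omega)
  refine ⟨fun y => .var (Function.invFunOn g (A : Set ℕ) y), ?_⟩
  have : (t.subst σ).subst (fun y => Tm.var (Function.invFunOn g (A : Set ℕ) y)) = t := by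
    rw [subst_subst]
    conv_rhs => rw [← subst_var t]
    refine subst_congr _ _ t fun x hx => ?_
    have hxA : x ∈ A := hA ▸ hx
    obtain ⟨y, hy⟩ := (Finset.mem_filter.1 hxA).2
    rw [hy]
    simp only [Tm.subst]
    rw [← hg x y hy, hinj.leftInvOn_invFunOn (Finset.mem_coe.2 hxA)]
  rw [this]
  exact Subterm.refl

theorem penc_measure {s t : Tm F ar} (h : PEnc s t) :
    t.size * t.size + (t.size - t.vars.card) < s.size * s.size + (s.size - s.vars.card) := by
  obtain ⟨⟨σ, h1⟩, h2⟩ := h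
  have h3 := size_le_subst σ t
  have key : t.size < s.size ∨ (t.size = s.size ∧ s.vars.card < t.vars.card) := by
    rcases h1.eq_or_lt with h | h
    · subst h
      rcases Nat.lt_or_eq_of_le h3 with h4 | h4
      · exact Or.inl h4
      · refine Or.inr ⟨h4, ?_⟩
        by_contra hc
        exact h2 (enc_back σ t h4.symm (by omega))
    · left; omega
  rcases key with h | ⟨h, h'⟩
  · have : (t.size + 1) * (t.size + 1) ≤ s.size * s.size := Nat.mul_le_mul h h
    have h4 : (t.size + 1) * (t.size + 1) = t.size * t.size + 2 * t.size + 1 := by ring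
    omega
  · have := card_vars_le t
    rw [h] at this ⊢
    omega

theorem penc_wf : WellFounded fun a b : Tm F ar => PEnc b a :=
  Subrelation.wf (r := InvImage (· < ·)
      fun t : Tm F ar => t.size * t.size + (t.size - t.vars.card))
    (fun h => penc_measure h) (InvImage.wf _ Nat.lt_wfRel.wf)

/-- The auxiliary order: a `gt`-step followed by encompassment. -/
def Big (gt : Tm F ar → Tm F ar → Prop) (u w : Tm F ar) : Prop := ∃ x, gt u x ∧ Enc x w

theorem big_wf {gt : Tm F ar → Tm F ar → Prop} (hg : RedOrd gt) :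
    WellFounded fun a b : Tm F ar => Big gt b a := by
  have key : ∀ x w : Tm F ar, Enc x w → Acc (fun a b : Tm F ar => Big gt b a) w := by
    intro x
    induction x using hg.wf.induction with
    | _ x ihx =>
      intro w hxw
      refine Acc.intro w fun w' hw' => ?_
      obtain ⟨y, h1, h2⟩ := hw'
      obtain ⟨z, h3, h4⟩ := hxw.comm hg h1
      exact ihx z h3 w' (h4.trans' h2)
  exact ⟨fun w => key w w (Enc.refl' w)⟩

theorem Rew.subst' {R : Set (Tm F ar × Tm F ar)} (σ : ℕ → Tm F ar) {a b : Tm F ar}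
    (h : Rew R a b) : Rew R (a.subst σ) (b.subst σ) := by
  induction h with
  | root l r τ h =>
    rw [subst_subst, subst_subst]
    exact Rew.root l r _ h
  | arg f ts i u _ ih =>
    have h1 : (fun j => (Function.update ts i u j).subst σ) =
        Function.update (fun j => (ts j).subst σ) i (u.subst σ) := by
      funext j
      by_cases hj : j = i
      · subst hj; simp
      · simp [Function.update_of_ne hj]
    simp only [Tm.subst, h1]
    exact Rew.arg f (fun j => (ts j).subst σ) i _ ih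

theorem Subterm.rew_comm {R : Set (Tm F ar × Tm F ar)} {a b s : Tm F ar}
    (h : Subterm a s) (hab : Rew R a b) : ∃ x, Rew R s x ∧ Subterm b x := by
  induction h with
  | refl => exact ⟨b, hab, Subterm.refl⟩
  | arg f ts i _ ih =>
    obtain ⟨x, h1, h2⟩ := ih
    exact ⟨.app f (Function.update ts i x), Rew.arg f ts i x h1,
      Subterm.arg f _ i (by simpa using h2)⟩

theorem Enc.rew_comm {R : Set (Tm F ar × Tm F ar)} {s l w : Tm F ar}
    (h : Enc s l) (hw : Rew R l w) : ∃ x, Rew R s x ∧ Enc x w := by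
  obtain ⟨σ, h⟩ := h
  obtain ⟨x, h1, h2⟩ := h.rew_comm (hw.subst' σ)
  exact ⟨x, h1, σ, h2⟩

theorem Rew.self (l r : Tm F ar) : Rew {(l, r)} l r := by
  have := Rew.root (R := {(l, r)}) l r Tm.var rfl
  rwa [subst_var, subst_var] at this

theorem stabilize {J : Type} [Finite J] (B : Tm F ar → Prop) (f : ℕ → J → Tm F ar)
    (ok : ℕ → J → Prop) (A : ℕ → Tm F ar → Prop)
    (hA : ∀ t l, A t l ↔ B l ∨ ∃ j, ok t j ∧ Enc l (f t j))
    (hB : ∀ l l', Enc l' l → B l → B l') (hmono : ∀ t l, A t l → A (t + 1) l) :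
    ∃ t, ∀ t' l, A t' l → A t l := by
  classical
  have := Fintype.ofFinite J
  have hup : ∀ t l l', Enc l' l → A t l → A t l' := by
    intro t l l' h h1
    rcases (hA t l).1 h1 with h2 | ⟨j, h2, h3⟩
    · exact (hA t l').2 (Or.inl (hB l l' h h2))
    · exact (hA t l').2 (Or.inr ⟨j, h2, h.trans' h3⟩)
  have hm : ∀ t t' l, t ≤ t' → A t l → A t' l := by
    intro t t' l h h1
    induction t', h using Nat.le_induction with
    | base => exact h1
    | succ n _ ih => exact hmono n l ih
  by_contra hcon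
  have h1 : ∀ t, ∃ t' y, t ≤ t' ∧ A t' y ∧ ¬ A t y ∧
      ∀ z, (∃ s, A s z) → Enc y z → Enc z y := by
    intro t
    have h2 : ∃ t' l, A t' l ∧ ¬ A t l := by
      by_contra h3
      refine hcon ⟨t, fun t' l h4 => ?_⟩
      by_contra h5
      exact h3 ⟨t', l, h4, h5⟩
    obtain ⟨t', l, h3, h4⟩ := h2
    obtain ⟨y, ⟨⟨s, hs⟩, hy⟩, hmin⟩ := penc_wf.has_min {y | (∃ s, A s y) ∧ Enc l y}
      ⟨l, ⟨t', h3⟩, Enc.refl' l⟩
    refine ⟨max t s, y, le_max_left _ _, hm s _ y (le_max_right _ _) hs,
      fun h5 => h4 (hup t y l hy h5), fun z hz hyz => ?_⟩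
    by_contra h5
    exact hmin z ⟨hz, hy.trans' hyz⟩ ⟨hyz, h5⟩
  choose g y hg1 hg2 hg3 hg4 using h1
  let τ : ℕ → ℕ := fun k => Nat.rec 0 (fun _ t => g t) k
  have hτ : ∀ k, τ (k + 1) = g (τ k) := fun k => rfl
  have hτm : Monotone τ := monotone_nat_of_le_succ fun k => by rw [hτ]; exact hg1 _
  let N := Fintype.card J
  have h2 : ∀ k : Fin (N + 1), ∃ j, ok (τ (N + 1)) j ∧ Enc (y (τ k)) (f (τ (N + 1)) j) := by
    intro k
    have h3 : A (τ (N + 1)) (y (τ k)) :=
      hm _ _ _ (hτm (by have := k.2; omega : k.1 + 1 ≤ N + 1)) (hg2 (τ k))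
    rcases (hA _ _).1 h3 with h4 | h4
    · exact absurd ((hA _ _).2 (Or.inl h4)) (hg3 (τ k))
    · exact h4
  choose j hj1 hj2 using h2
  have key : ∀ k k' : Fin (N + 1), k.1 < k'.1 → j k ≠ j k' := by
    intro k k' hk he
    have h3 : Enc (f (τ (N + 1)) (j k)) (y (τ k)) :=
      hg4 _ _ ⟨τ (N + 1), (hA _ _).2 (Or.inr ⟨j k, hj1 k, Enc.refl' _⟩)⟩ (hj2 k)
    have h4 : Enc (y (τ k')) (y (τ k)) := (hj2 k').trans' (he ▸ h3)
    have h5 : A (τ k') (y (τ k)) := hm _ _ _ (hτm (by omega : k.1 + 1 ≤ k'.1)) (hg2 (τ k))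
    exact hg3 (τ k') (hup _ _ _ h4 h5)
  obtain ⟨k, k', hne, he⟩ := Fintype.exists_ne_map_eq_of_card_lt j (by simp [N])
  rcases Nat.lt_or_gt_of_ne (fun h => hne (Fin.ext h)) with h | h
  · exact key k k' h he
  · exact key k' k h he.symm

end Pool.Agent.P.MP_14079b_lc.Ddf
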