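import Pool.Agent.P.MP_14079b_lc.DdfCore

set_option autoImplicit false

namespace Pool.Agent.P.MP_14079b_lc.Ddf

variable {F : Type} {ar : F → ℕ}

/-- The family of items `L` covers the state `(E, R)`. -/
structure Cover {I : Type} (L : I → It F ar) (E : Set (Sym2 (Tm F ar)))
    (R : Set (Tm F ar × Tm F ar)) : Prop where
  eqns : ∀ e ∈ E, ∃ ι, (L ι).tag = .eqn ∧ s((L ι).v false, (L ι).v true) = e
  rules : ∀ p ∈ R, ∃ ι d, (L ι).tag = .rule d ∧ ((L ι).v d, (L ι).v (!d)) = p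
  sound : ∀ ι d, (L ι).tag = .rule d → ((L ι).v d, (L ι).v (!d)) ∈ R

theorem side_of_eq {v : Bool → Tm F ar} {s t : Tm F ar} (h : s(v false, v true) = s(s, t)) :
    ∃ d, v d = s ∧ v (!d) = t := by
  rcases Sym2.eq_iff.1 h with ⟨h1, h2⟩ | ⟨h1, h2⟩
  · exact ⟨false, h1, h2⟩
  · exact ⟨true, h2, h1⟩

theorem eq_of_side {v : Bool → Tm F ar} {s t : Tm F ar} {d : Bool} (h1 : v d = s)
    (h2 : v (!d) = t) : s(v false, v true) = s(s, t) := by
  cases d
  · rw [← h1, ← h2]; rfl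
  · rw [← h1, ← h2]; exact Sym2.eq_swap

theorem lift_eqn {I : Type} [DecidableEq I] {L : I → It F ar} {E E' : Set (Sym2 (Tm F ar))}
    {R R' : Set (Tm F ar × Tm F ar)} (hc : Cover L E R) (ι0 : I) (y : It F ar)
    (h0 : (L ι0).tag = .eqn)
    (hE : ∀ e ∈ E', (e ∈ E ∧ e ≠ s((L ι0).v false, (L ι0).v true)) ∨
      (y.tag = .eqn ∧ s(y.v false, y.v true) = e))
    (hR : ∀ p ∈ R', p ∈ R ∨ ∃ d, y.tag = .rule d ∧ (y.v d, y.v (!d)) = p)
    (hR2 : R ⊆ R') (hR3 : ∀ d, y.tag = .rule d → (y.v d, y.v (!d)) ∈ R') :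
    Cover (Function.update L ι0 y) E' R' := by
  refine ⟨fun e he => ?_, fun p hp => ?_, fun ι d ht => ?_⟩
  · rcases hE e he with ⟨h1, h2⟩ | h1
    · obtain ⟨ι, h3, h4⟩ := hc.eqns e h1
      have : ι ≠ ι0 := by rintro rfl; exact h2 h4.symm
      exact ⟨ι, by rw [Function.update_of_ne this]; exact ⟨h3, h4⟩⟩
    · exact ⟨ι0, by rw [Function.update_self]; exact h1⟩
  · rcases hR p hp with h1 | ⟨d, h1⟩
    · obtain ⟨ι, d, h3, h4⟩ := hc.rules p h1
      have : ι ≠ ι0 := by rintro rfl; rw [h0] at h3; cases h3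
      exact ⟨ι, d, by rw [Function.update_of_ne this]; exact ⟨h3, h4⟩⟩
    · exact ⟨ι0, d, by rw [Function.update_self]; exact h1⟩
  · by_cases h : ι = ι0
    · subst h
      rw [Function.update_self] at ht ⊢
      exact hR3 d ht
    · rw [Function.update_of_ne h] at ht ⊢
      exact hR2 (hc.sound ι d ht)

theorem exists_modify {I : Type} (L : I → It F ar) (p : Tm F ar × Tm F ar)
    (φ : Bool → It F ar → It F ar) :
    ∃ L' : I → It F ar, ∀ ι,
      (∃ d, (L ι).tag = .rule d ∧ ((L ι).v d, (L ι).v (!d)) = p ∧ L' ι = φ d (L ι)) ∨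
      ((∀ d, (L ι).tag = .rule d → ((L ι).v d, (L ι).v (!d)) ≠ p) ∧ L' ι = L ι) := by
  have : ∀ ι, ∃ y : It F ar,
      (∃ d, (L ι).tag = .rule d ∧ ((L ι).v d, (L ι).v (!d)) = p ∧ y = φ d (L ι)) ∨
      ((∀ d, (L ι).tag = .rule d → ((L ι).v d, (L ι).v (!d)) ≠ p) ∧ y = L ι) := by
    intro ι
    by_cases h : ∃ d, (L ι).tag = .rule d ∧ ((L ι).v d, (L ι).v (!d)) = p
    · obtain ⟨d, h1, h2⟩ := h
      exact ⟨φ d (L ι), Or.inl ⟨d, h1, h2, rfl⟩⟩
    · exact ⟨L ι, Or.inr ⟨fun d h1 h2 => h ⟨d, h1, h2⟩, rfl⟩⟩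
  choose L' hL' using this
  exact ⟨L', hL'⟩

theorem lift_step {I : Type} {gt : Tm F ar → Tm F ar → Prop} {L : I → It F ar}
    {E E' : Set (Sym2 (Tm F ar))} {R R' : Set (Tm F ar × Tm F ar)} {k : Kind}
    (hc : Cover L E R) (hs : Step gt E R k E' R') (hk : k ≠ .deduce) :
    ∃ L' : I → It F ar, Cover L' E' R' ∧ (∀ ι, L' ι = L ι ∨ Chg L L' ι) ∧ ∃ ι, Chg L L' ι := by
  classical
  have single : ∀ (ι0 : I) (y : It F ar), Chg L (Function.update L ι0 y) ι0 →
      (∀ ι, Function.update L ι0 y ι = L ι ∨ Chg L (Function.update L ι0 y) ι) ∧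
        ∃ ι, Chg L (Function.update L ι0 y) ι := by
    intro ι0 y h
    refine ⟨fun ι => ?_, ι0, h⟩
    by_cases h1 : ι = ι0
    · subst h1; exact Or.inr h
    · exact Or.inl (Function.update_of_ne h1 _ _)
  have nb : ∀ d : Bool, (!d) ≠ d := by intro d; cases d <;> simp
  cases hs with
  | deduce s t u _ _ => exact absurd rfl hk
  | orient s t he _ =>
    obtain ⟨ι0, h0, h1⟩ := hc.eqns _ he
    obtain ⟨d, h2, h3⟩ := side_of_eq h1
    refine ⟨Function.update L ι0 ⟨.rule d, (L ι0).v⟩, lift_eqn hc ι0 _ h0 ?_ ?_ ?_ ?_,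
      single ι0 _ (Chg.orient d h0 (by simp) (by simp))⟩
    · intro e he'
      exact Or.inl ⟨he'.1, by rw [h1]; exact he'.2⟩
    · rintro p (rfl | hp)
      · exact Or.inr ⟨d, rfl, by simp [h2, h3]⟩
      · exact Or.inl hp
    · exact Set.subset_insert _ _
    · intro d' hd'
      have : d = d' := Tag.rule.inj hd'
      subst this
      exact Or.inl (by simp [h2, h3])
  | delete s he =>
    obtain ⟨ι0, h0, h1⟩ := hc.eqns _ he
    refine ⟨Function.update L ι0 ⟨.gone, (L ι0).v⟩, lift_eqn hc ι0 _ h0 ?_ ?_ ?_ ?_,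
      single ι0 _ (Chg.delete h0 (by simp) (by simp))⟩
    · intro e he'
      exact Or.inl ⟨he'.1, by rw [h1]; exact he'.2⟩
    · intro p hp
      exact Or.inl hp
    · exact subset_rfl
    · intro d' hd'
      cases hd'
  | simplify s t u he hr =>
    obtain ⟨ι0, h0, h1⟩ := hc.eqns _ he
    obtain ⟨d, h2, h3⟩ := side_of_eq h1
    obtain ⟨l, r, hlr, hr'⟩ := hr.exists_rule
    obtain ⟨κ, d', h4, h5⟩ := hc.rules _ hlr
    refine ⟨Function.update L ι0 ⟨.eqn, Function.update (L ι0).v d u⟩,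
      lift_eqn hc ι0 _ h0 ?_ ?_ ?_ ?_,
      single ι0 _ (Chg.rewrite d κ d' h4 ?_ ?_ (Or.inl ⟨h0, by simp⟩))⟩
    · rintro e (rfl | he')
      · exact Or.inr ⟨rfl, eq_of_side (d := d) (by simp)
          (by simp only [Function.update_of_ne (nb d)]; exact h3)⟩
      · exact Or.inl ⟨he'.1, by rw [h1]; exact he'.2⟩
    · intro p hp
      exact Or.inl hp
    · exact subset_rfl
    · intro d' hd'
      cases hd'
    · rw [h5, h2]
      simpa using hr'
    · simp only [Function.update_self, Function.update_of_ne (nb d)]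
  | compose s t u hst hr =>
    obtain ⟨l, r, hlr, hr'⟩ := hr.exists_rule
    obtain ⟨κ, d', h4, h5⟩ := hc.rules _ hlr
    obtain ⟨L', hL'⟩ := exists_modify L (s, t)
      (fun d x => ⟨.rule d, Function.update x.v (!d) u⟩)
    have hch : ∀ ι d, (L ι).tag = .rule d → ((L ι).v d, (L ι).v (!d)) = (s, t) →
        L' ι = ⟨.rule d, Function.update (L ι).v (!d) u⟩ →
        Chg L L' ι ∧ (L' ι).tag = .rule d ∧ ((L' ι).v d, (L' ι).v (!d)) = (s, u) := by
      intro ι d h1 h2 h3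
      have h6 : (L' ι).v d = (L ι).v d := by
        rw [h3]; exact Function.update_of_ne (nb d).symm _ _
      have h7 : (L' ι).v (!d) = u := by rw [h3]; exact Function.update_self _ _ _
      refine ⟨Chg.rewrite (!d) κ d' h4 ?_ (by rw [Bool.not_not]; exact h6)
        (Or.inr (Or.inl ⟨by rw [Bool.not_not]; exact h1, by rw [Bool.not_not, h3]⟩)),
        by rw [h3], by rw [h6, h7, (Prod.mk.inj h2).1]⟩
      rw [h5, h7, (Prod.mk.inj h2).2]
      exact hr'
    have hhit : ∃ ι d, (L ι).tag = .rule d ∧ ((L ι).v d, (L ι).v (!d)) = (s, t) ∧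
        L' ι = ⟨.rule d, Function.update (L ι).v (!d) u⟩ := by
      obtain ⟨ι, d, h1, h2⟩ := hc.rules _ hst
      rcases hL' ι with ⟨d2, h⟩ | ⟨h, -⟩
      · exact ⟨ι, d2, h⟩
      · exact absurd h2 (h d h1)
    refine ⟨L', ⟨fun e he => ?_, fun p hp => ?_, fun ι d ht => ?_⟩, fun ι => ?_, ?_⟩
    · obtain ⟨ι, h1, h2⟩ := hc.eqns e he
      rcases hL' ι with ⟨d, h, -⟩ | ⟨-, h⟩
      · rw [h1] at h; cases h
      · exact ⟨ι, by rw [h]; exact ⟨h1, h2⟩⟩
    · rcases hp with rfl | hp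
      · obtain ⟨ι, d, h1, h2, h3⟩ := hhit
        exact ⟨ι, d, (hch ι d h1 h2 h3).2⟩
      · obtain ⟨ι, d, h1, h2⟩ := hc.rules p hp.1
        rcases hL' ι with ⟨d2, h, h', -⟩ | ⟨-, h⟩
        · rw [h1] at h
          have : d = d2 := Tag.rule.inj h
          subst this
          exact absurd (h2.symm.trans h') hp.2
        · exact ⟨ι, d, by rw [h]; exact ⟨h1, h2⟩⟩
    · rcases hL' ι with ⟨d2, h1, h2, h3⟩ | ⟨h1, h⟩
      · obtain ⟨-, h6, h7⟩ := hch ι d2 h1 h2 h3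
        rw [ht] at h6
        have : d = d2 := Tag.rule.inj h6
        subst this
        exact Or.inl h7
      · rw [h] at ht ⊢
        exact Or.inr ⟨hc.sound ι d ht, h1 d ht⟩
    · rcases hL' ι with ⟨d2, h1, h2, h3⟩ | ⟨-, h⟩
      · exact Or.inr (hch ι d2 h1 h2 h3).1
      · exact Or.inl h
    · obtain ⟨ι, d, h1, h2, h3⟩ := hhit
      exact ⟨ι, (hch ι d h1 h2 h3).1⟩
  | collapse s t u hst hr =>
    obtain ⟨l, r, hlr, hr'⟩ := hr.exists_rule
    obtain ⟨κ, d', h4, h5⟩ := hc.rules _ hlr.1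
    obtain ⟨L', hL'⟩ := exists_modify L (s, t)
      (fun d x => ⟨.eqn, Function.update x.v d u⟩)
    have hκ : L' κ = L κ := by
      rcases hL' κ with ⟨d2, h, h', -⟩ | ⟨-, h⟩
      · rw [h4] at h
        have : d' = d2 := Tag.rule.inj h
        subst this
        exact absurd (h5.symm.trans h') hlr.2
      · exact h
    have hch : ∀ ι d, (L ι).tag = .rule d → ((L ι).v d, (L ι).v (!d)) = (s, t) →
        L' ι = ⟨.eqn, Function.update (L ι).v d u⟩ →
        Chg L L' ι ∧ (L' ι).tag = .eqn ∧ s((L' ι).v false, (L' ι).v true) = s(u, t) := by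
      intro ι d h1 h2 h3
      have h6 : (L' ι).v (!d) = (L ι).v (!d) := by
        rw [h3]; exact Function.update_of_ne (nb d) _ _
      have h7 : (L' ι).v d = u := by rw [h3]; exact Function.update_self _ _ _
      refine ⟨Chg.rewrite d κ d' h4 ?_ h6 (Or.inr (Or.inr ⟨h1, by rw [h3], hκ⟩)),
        by rw [h3], eq_of_side h7 (h6.trans (Prod.mk.inj h2).2)⟩
      rw [h5, h7, (Prod.mk.inj h2).1]
      exact hr'
    have hhit : ∃ ι d, (L ι).tag = .rule d ∧ ((L ι).v d, (L ι).v (!d)) = (s, t) ∧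
        L' ι = ⟨.eqn, Function.update (L ι).v d u⟩ := by
      obtain ⟨ι, d, h1, h2⟩ := hc.rules _ hst
      rcases hL' ι with ⟨d2, h⟩ | ⟨h, -⟩
      · exact ⟨ι, d2, h⟩
      · exact absurd h2 (h d h1)
    refine ⟨L', ⟨fun e he => ?_, fun p hp => ?_, fun ι d ht => ?_⟩, fun ι => ?_, ?_⟩
    · rcases he with rfl | he
      · obtain ⟨ι, d, h1, h2, h3⟩ := hhit
        exact ⟨ι, (hch ι d h1 h2 h3).2⟩
      · obtain ⟨ι, h1, h2⟩ := hc.eqns e he
        rcases hL' ι with ⟨d, h, -⟩ | ⟨-, h⟩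
        · rw [h1] at h; cases h
        · exact ⟨ι, by rw [h]; exact ⟨h1, h2⟩⟩
    · obtain ⟨ι, d, h1, h2⟩ := hc.rules p hp.1
      rcases hL' ι with ⟨d2, h, h', -⟩ | ⟨-, h⟩
      · rw [h1] at h
        have : d = d2 := Tag.rule.inj h
        subst this
        exact absurd (h2.symm.trans h') hp.2
      · exact ⟨ι, d, by rw [h]; exact ⟨h1, h2⟩⟩
    · rcases hL' ι with ⟨d2, h1, h2, h3⟩ | ⟨h1, h⟩
      · obtain ⟨-, h6, -⟩ := hch ι d2 h1 h2 h3
        rw [ht] at h6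
        cases h6
      · rw [h] at ht ⊢
        exact ⟨hc.sound ι d ht, h1 d ht⟩
    · rcases hL' ι with ⟨d2, h1, h2, h3⟩ | ⟨-, h⟩
      · exact Or.inr (hch ι d2 h1 h2 h3).1
      · exact Or.inl h
    · obtain ⟨ι, d, h1, h2, h3⟩ := hhit
      exact ⟨ι, (hch ι d h1 h2 h3).1⟩

theorem Step.finite {gt : Tm F ar → Tm F ar → Prop} {E E' : Set (Sym2 (Tm F ar))}
    {R R' : Set (Tm F ar × Tm F ar)} {k : Kind} (hs : Step gt E R k E' R')
    (hE : E.Finite) (hR : R.Finite) : E'.Finite ∧ R'.Finite := by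
  cases hs with
  | deduce s t u _ _ => exact ⟨hE.insert _, hR⟩
  | orient s t _ _ => exact ⟨hE.sdiff, hR.insert _⟩
  | delete s _ => exact ⟨hE.sdiff, hR⟩
  | simplify s t u _ _ => exact ⟨hE.sdiff.insert _, hR⟩
  | compose s t u _ _ => exact ⟨hE, hR.sdiff.insert _⟩
  | collapse s t u _ _ => exact ⟨hE.insert _, hR.sdiff⟩

theorem exists_cover (E : Set (Sym2 (Tm F ar))) (R : Set (Tm F ar × Tm F ar)) :
    ∃ L : E ⊕ R → It F ar, Cover L E R := by
  have h1 : ∀ e : Sym2 (Tm F ar), ∃ a b, s(a, b) = e := fun e =>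
    Sym2.ind (fun a b => ⟨a, b, rfl⟩) e
  choose a b hab using h1
  refine ⟨Sum.elim (fun e => ⟨.eqn, fun d => cond d (b e) (a e)⟩)
    (fun p => ⟨.rule false, fun d => cond d p.1.2 p.1.1⟩), ?_, ?_, ?_⟩
  · intro e he
    exact ⟨.inl ⟨e, he⟩, rfl, hab e⟩
  · intro p hp
    exact ⟨.inr ⟨p, hp⟩, false, rfl, rfl⟩
  · rintro (e | p) d ht
    · cases ht
    · have : false = d := Tag.rule.inj ht
      subst this
      exact p.2

theorem Rew.mono {R R' : Set (Tm F ar × Tm F ar)} (h : R ⊆ R') {a b : Tm F ar}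
    (hr : Rew R a b) : Rew R' a b := by
  induction hr with
  | root l r σ h1 => exact Rew.root l r σ (h h1)
  | arg f ts i u _ ih => exact Rew.arg f ts i u ih

/-- Collapse with proper encompassment is a special case of the Collapse rule of `Step`. -/
theorem Step.collapse_of_penc {gt : Tm F ar → Tm F ar → Prop} {E : Set (Sym2 (Tm F ar))}
    {R : Set (Tm F ar × Tm F ar)} {s t u l r : Tm F ar} (hst : (s, t) ∈ R) (hlr : (l, r) ∈ R)
    (hr : Rew {(l, r)} s u) (hp : PEnc s l) :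
    Step gt E R .collapse (insert s(u, t) E) (R \ {(s, t)}) := by
  refine Step.collapse s t u hst (hr.mono ?_)
  rintro p rfl
  refine ⟨hlr, fun h => hp.2 ?_⟩
  rw [(Prod.mk.inj (Set.mem_singleton_iff.1 h)).1]
  exact Enc.refl' s

theorem Step.rules_eq {gt : Tm F ar → Tm F ar → Prop} {E E' : Set (Sym2 (Tm F ar))}
    {R R' : Set (Tm F ar × Tm F ar)} {k : Kind} (hs : Step gt E R k E' R')
    (hk : k = .deduce) : R' = R := by
  cases hs with
  | deduce s t u _ _ => rfl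
  | orient s t _ _ => cases hk
  | delete s _ => rfl
  | simplify s t u _ _ => rfl
  | compose s t u _ _ => cases hk
  | collapse s t u _ _ => cases hk

theorem main (E : ℕ → Set (Sym2 (Tm F ar))) (R : ℕ → Set (Tm F ar × Tm F ar))
    (gt : ℕ → Tm F ar → Tm F ar → Prop) (k : ℕ → Kind)
    (hE : (E 0).Finite) (hR : (R 0).Finite) (hgt : ∀ i, RedOrd (gt i))
    (hcomp : ∀ i, ∀ p ∈ R i, gt i p.1 p.2)
    (hstep : ∀ i, Step (gt i) (E i) (R i) (k i) (E (i + 1)) (R (i + 1))) (N : ℕ)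
    (hN : ∀ i, N ≤ i → k i = .deduce → E (i + 1) = E i) :
    ∃ M, ∀ i, M ≤ i → k i = .deduce ∧ E (i + 1) = E i ∧ R (i + 1) = R i := by
  have hfin : ∀ i, (E i).Finite ∧ (R i).Finite := by
    intro i
    induction i with
    | zero => exact ⟨hE, hR⟩
    | succ i ih => exact (hstep i).finite ih.1 ih.2
  have := (hfin N).1.to_subtype
  have := (hfin N).2.to_subtype
  obtain ⟨L0, hL0⟩ := exists_cover (E N) (R N)
  have hlift : ∀ (n : ℕ) (L : {L : E N ⊕ R N → It F ar // Cover L (E (N + n)) (R (N + n))}),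
      ∃ L' : {L : E N ⊕ R N → It F ar // Cover L (E (N + (n + 1))) (R (N + (n + 1)))},
        (∀ ι, L'.1 ι = L.1 ι ∨ Chg L.1 L'.1 ι) ∧
          (k (N + n) ≠ .deduce → ∃ ι, Chg L.1 L'.1 ι) := by
    intro n L
    by_cases hk : k (N + n) = .deduce
    · refine ⟨⟨L.1, ?_⟩, fun ι => Or.inl rfl, fun h => absurd hk h⟩
      have h1 : E (N + (n + 1)) = E (N + n) := hN (N + n) (by omega) hk
      have h2 : R (N + (n + 1)) = R (N + n) := (hstep (N + n)).rules_eq hk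
      rw [h1, h2]
      exact L.2
    · obtain ⟨L', h1, h2, h3⟩ := lift_step L.2 (hstep (N + n)) hk
      exact ⟨⟨L', h1⟩, h2, fun _ => h3⟩
  choose φ hφ using hlift
  let Ls : (n : ℕ) → {L : E N ⊕ R N → It F ar // Cover L (E (N + n)) (R (N + n))} :=
    fun n => Nat.rec ⟨L0, hL0⟩ φ n
  obtain ⟨M, hM⟩ := core (L := fun n => (Ls n).1) (gt := fun n => gt (N + n)) (fun n => hgt _)
    (fun n ι d ht => hcomp _ _ ((Ls n).2.sound ι d ht)) (fun n => (hφ n (Ls n)).1)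
  refine ⟨N + M, fun i hi => ?_⟩
  obtain ⟨n, rfl⟩ : ∃ n, i = N + n := ⟨i - N, by omega⟩
  have hk : k (N + n) = .deduce := by
    by_contra hk
    obtain ⟨ι, h⟩ := (hφ n (Ls n)).2 hk
    exact hM n (by omega) ι h
  exact ⟨hk, hN _ (by omega) hk, (hstep _).rules_eq hk⟩

end Pool.Agent.P.MP_14079b_lc.Ddf
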