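import Mathlib

set_option autoImplicit false

namespace KBC

/-- first-order terms over the signature `F` with arities `ar`, variables `ℕ` -/
inductive Tm {F : Type} (ar : F → ℕ) : Type
  | var : ℕ → Tm ar
  | app : (f : F) → (Fin (ar f) → Tm ar) → Tm ar

/-- one-hole contexts -/
inductive Ctx {F : Type} (ar : F → ℕ) : Type
  | hole : Ctx ar
  | app : (f : F) → (Fin (ar f) → Tm ar) → Fin (ar f) → Ctx ar → Ctx ar

variable {F : Type} {ar : F → ℕ}

/-- substitution in a term -/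
def Tm.sub (σ : ℕ → Tm ar) : Tm ar → Tm ar
  | .var x => σ x
  | .app f a => .app f (fun i => (a i).sub σ)

/-- the term `C[u]` -/
def Ctx.fill : Ctx ar → Tm ar → Tm ar
  | .hole, u => u
  | .app f a i C, u => .app f (Function.update a i (C.fill u))

/-- substitution in a context -/
def Ctx.sub (σ : ℕ → Tm ar) : Ctx ar → Ctx ar
  | .hole => .hole
  | .app f a i C => .app f (fun j => (a j).sub σ) i (C.sub σ)

/-- one rewrite step with a rule of `R` -/
def Rew (R : Set (Tm ar × Tm ar)) (s t : Tm ar) : Prop :=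
  ∃ (l r : Tm ar) (C : Ctx ar) (σ : ℕ → Tm ar),
    (l, r) ∈ R ∧ s = C.fill (l.sub σ) ∧ t = C.fill (r.sub σ)

/-- reduction ordering -/
def IsRedOrd (gt : Tm ar → Tm ar → Prop) : Prop :=
  (∀ s t u, gt s t → gt t u → gt s u) ∧ WellFounded (fun t s => gt s t) ∧
    ∀ (s t : Tm ar) (C : Ctx ar) (σ : ℕ → Tm ar), gt s t → gt (C.fill (s.sub σ)) (C.fill (t.sub σ))

/-- `s` encompasses `l`: a subterm of `s` is an instance of `l` -/
def Encomp (s l : Tm ar) : Prop := ∃ (C : Ctx ar) (σ : ℕ → Tm ar), s = C.fill (l.sub σ)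

/-- one completion step `(E, R) ⊢ (E', R')` relative to the ordering `gt` -/
inductive Infer (gt : Tm ar → Tm ar → Prop) (E : Set (Sym2 (Tm ar))) (R : Set (Tm ar × Tm ar)) :
    Set (Sym2 (Tm ar)) → Set (Tm ar × Tm ar) → Prop
  | deduce (u s t : Tm ar) : Rew R u s → Rew R u t → Infer gt E R (insert s(s, t) E) R
  | orient (s t : Tm ar) : s(s, t) ∈ E → gt s t → Infer gt E R (E \ {s(s, t)}) (insert (s, t) R)
  | delete (s : Tm ar) : s(s, s) ∈ E → Infer gt E R (E \ {s(s, s)}) R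
  | simplify (s t u : Tm ar) : s(s, t) ∈ E → Rew R s u →
      Infer gt E R (insert s(u, t) (E \ {s(s, t)})) R
  | compose (s t u : Tm ar) : (s, t) ∈ R → Rew R t u →
      Infer gt E R E (insert (s, u) (R \ {(s, t)}))
  | collapse (s t u l r : Tm ar) : (s, t) ∈ R → (l, r) ∈ R → Rew {(l, r)} s u → ¬ Encomp l s →
      Infer gt E R (insert s(u, t) E) (R \ {(s, t)})

/-- a completion run with changing orderings; a finite run is continued as a constant sequence -/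
def IsRun (E : ℕ → Set (Sym2 (Tm ar))) (R : ℕ → Set (Tm ar × Tm ar)) : Prop :=
  (E 0).Finite ∧ R 0 = ∅ ∧ ∃ gt : ℕ → Tm ar → Tm ar → Prop, ∀ i,
    IsRedOrd (gt i) ∧ (∀ l r, (l, r) ∈ R i → gt i l r) ∧
      (Infer (gt i) (E i) (R i) (E (i + 1)) (R (i + 1)) ∨ ∀ j, i ≤ j → E j = E i ∧ R j = R i)

/-- the persisting elements of a sequence of sets -/
def persist {α : Type} (X : ℕ → Set α) : Set α := {a | ∃ i, ∀ j, i ≤ j → a ∈ X j}

/-- every critical pair of `P` (taken at some most general unifier) is trivial or lies in some `E j` -/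
def Fair (E : ℕ → Set (Sym2 (Tm ar))) (P : Set (Tm ar × Tm ar)) : Prop :=
  ∀ (l₁ r₁ l₂ r₂ u : Tm ar) (C : Ctx ar), (l₁, r₁) ∈ P → (l₂, r₂) ∈ P → l₁ = C.fill u →
    (∀ x, u ≠ Tm.var x) → (∃ τ₁ τ₂, u.sub τ₁ = l₂.sub τ₂) →
    ∃ σ₁ σ₂ : ℕ → Tm ar, u.sub σ₁ = l₂.sub σ₂ ∧
      (∀ τ₁ τ₂, u.sub τ₁ = l₂.sub τ₂ →
        ∃ θ, l₁.sub τ₁ = (l₁.sub σ₁).sub θ ∧ l₂.sub τ₂ = (l₂.sub σ₂).sub θ) ∧
      ((C.sub σ₁).fill (r₂.sub σ₂) = r₁.sub σ₁ ∨
        ∃ j, s((C.sub σ₁).fill (r₂.sub σ₂), r₁.sub σ₁) ∈ E j)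

/-- confluence of the rewrite relation of `P` -/
def Confluent (P : Set (Tm ar × Tm ar)) : Prop :=
  ∀ u s t, Relation.ReflTransGen (Rew P) u s → Relation.ReflTransGen (Rew P) u t →
    ∃ v, Relation.ReflTransGen (Rew P) s v ∧ Relation.ReflTransGen (Rew P) t v

end KBC
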