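import Pool.Agent.P.MP_14079b_lc.Huet

set_option autoImplicit false

namespace KBC

open Relation

theorem newman {V : Type} {r : V → V → Prop} (wf : WellFounded (fun t s => r s t))
    (loc : ∀ u a b, r u a → r u b → ∃ v, ReflTransGen r a v ∧ ReflTransGen r b v) :
    ∀ u s t, ReflTransGen r u s → ReflTransGen r u t →
      ∃ v, ReflTransGen r s v ∧ ReflTransGen r t v := by
  intro u
  induction u using wf.induction with
  | _ u ih =>
    intro s t hs ht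
    rcases hs.cases_head with rfl | ⟨a, a1, a2⟩
    · exact ⟨t, ht, .refl⟩
    rcases ht.cases_head with rfl | ⟨b, b1, b2⟩
    · exact ⟨s, .refl, .head a1 a2⟩
    obtain ⟨v, v1, v2⟩ := loc u a b a1 b1
    obtain ⟨w, w1, w2⟩ := ih a a1 s v a2 v1
    obtain ⟨z, z1, z2⟩ := ih b b1 w t (v2.trans w2) b2
    exact ⟨z, w1.trans z1, z2⟩

structure Abs {V : Type} (K : Set V) (E : ℕ → Set (Sym2 V)) (R : ℕ → Set (V × V)) : Prop where
  fin : K.Finite
  four : ∀ t a b, t ≠ a → t ≠ b → a ≠ b → t ∈ K → a ∈ K → b ∈ K →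
    ∃ d, ∀ x ∈ K, x = t ∨ x = a ∨ x = b ∨ x = d
  ord : ∀ i, ∃ gt : V → V → Prop, (∀ s t u, gt s t → gt t u → gt s u) ∧
    WellFounded (fun t s => gt s t) ∧ ∀ s t, (s, t) ∈ R i → gt s t
  mem : ∀ i s t, (s, t) ∈ R i → s ∈ K ∧ t ∈ K
  eq_out : ∀ k e, e ∈ E k → e ∉ E (k + 1) → ∃ s t, e = s(s, t) ∧
    ((s, t) ∈ R (k + 1) ∨ s = t ∨ ∃ u, (s, u) ∈ R k ∧ s(u, t) ∈ E (k + 1))
  rule_out : ∀ k s t, (s, t) ∈ R k → (s, t) ∉ R (k + 1) → ∃ u, (t, u) ∈ R k ∧ (s, u) ∈ R (k + 1)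
  fair : ∀ t a b, (t, a) ∈ persist R → (t, b) ∈ persist R → a = b ∨ ∃ j, s(a, b) ∈ E j
  nf : persist E = ∅

namespace Abs

variable {V : Type} {K : Set V} {E : ℕ → Set (Sym2 V)} {R : ℕ → Set (V × V)}

def Nv (R : ℕ → Set (V × V)) (z : V) : Prop := ∀ i y, (z, y) ∉ R i

variable (h : Abs K E R)
include h

theorem c1 {i : ℕ} {a : V} (e : (a, a) ∈ R i) : False := by
  obtain ⟨gt, _, g2, g3⟩ := h.ord i
  exact g2.asymmetric a a (g3 _ _ e) (g3 _ _ e)

theorem c2 {i : ℕ} {a b : V} (e : (a, b) ∈ R i) (e' : (b, a) ∈ R i) : False := by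
  obtain ⟨gt, _, g2, g3⟩ := h.ord i
  exact g2.asymmetric a b (g3 _ _ e') (g3 _ _ e)

theorem c3 {i : ℕ} {a b c : V} (e : (a, b) ∈ R i) (e' : (b, c) ∈ R i) (e'' : (c, a) ∈ R i) :
    False := by
  obtain ⟨gt, g1, g2, g3⟩ := h.ord i
  exact g2.asymmetric a c (g3 _ _ e'') (g1 _ _ _ (g3 _ _ e) (g3 _ _ e'))

theorem f1 {i : ℕ} {x y : V} (e : (x, y) ∈ R i) : ∀ j, i ≤ j → ∃ y', (x, y') ∈ R j := by
  intro j hj
  induction j, hj using Nat.le_induction with
  | base => exact ⟨y, e⟩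
  | succ j hj ih =>
    obtain ⟨y', hy⟩ := ih
    by_cases k : (x, y') ∈ R (j + 1)
    · exact ⟨y', k⟩
    · obtain ⟨u, _, hu⟩ := h.rule_out _ _ _ hy k
      exact ⟨u, hu⟩

theorem f2 {i : ℕ} {x z : V} (e : (x, z) ∈ R i) (hz : Nv R z) : (x, z) ∈ persist R := by
  by_contra hn
  obtain ⟨k, _, k1, k2⟩ := removed e hn
  obtain ⟨u, hu, _⟩ := h.rule_out _ _ _ k1 k2
  exact hz _ _ hu

theorem out {j : ℕ} {a b : V} (e : s(a, b) ∈ E j) (hab : a ≠ b) :
    ∃ k, (a, b) ∈ R k ∨ (b, a) ∈ R k ∨ (∃ u, (a, u) ∈ R k ∧ s(u, b) ∈ E (k + 1)) ∨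
      ∃ u, (b, u) ∈ R k := by
  obtain ⟨k, _, k1, k2⟩ := removed e (by rw [h.nf]; exact Set.notMem_empty _)
  obtain ⟨s, t, e', hc⟩ := h.eq_out _ _ k1 k2
  rcases Sym2.eq_iff.1 e' with ⟨rfl, rfl⟩ | ⟨rfl, rfl⟩
  · rcases hc with hc | hc | hc
    · exact ⟨_, Or.inl hc⟩
    · exact (hab hc).elim
    · exact ⟨k, Or.inr (Or.inr (Or.inl hc))⟩
  · rcases hc with hc | hc | ⟨u, hc, _⟩
    · exact ⟨_, Or.inr (Or.inl hc)⟩
    · exact (hab hc.symm).elim
    · exact ⟨k, Or.inr (Or.inr (Or.inr ⟨u, hc⟩))⟩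

theorem f3 {y z : V} (hy : Nv R y) (hz : Nv R z) (hne : y ≠ z) (j : ℕ) : s(y, z) ∉ E j := by
  intro e
  obtain ⟨k, c | c | ⟨u, c, _⟩ | ⟨u, c⟩⟩ := h.out e hne
  · exact hy _ _ c
  · exact hz _ _ c
  · exact hy _ _ c
  · exact hz _ _ c

theorem f4 {x y z : V} (hy : Nv R y) (hz : Nv R z) (hne : y ≠ z) {i j : ℕ} (e : (x, y) ∈ R i)
    (e' : (x, z) ∈ R j) : False := by
  rcases h.fair x y z (h.f2 e hy) (h.f2 e' hz) with c | ⟨k, c⟩
  · exact hne c
  · exact h.f3 hy hz hne k c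

theorem late : ∃ T, ∀ i, T ≤ i → persist R ⊆ R i ∧ ∀ x, ¬ Nv R x → ∃ y, (x, y) ∈ R i := by
  have a1 : (persist R).Finite := by
    refine (h.fin.prod h.fin).subset ?_
    rintro ⟨s, t⟩ ⟨i, hi⟩
    exact h.mem i s t (hi i le_rfl)
  have a2 : {x | ¬ Nv R x}.Finite := by
    refine h.fin.subset ?_
    intro x hx
    simp only [Nv, not_forall, not_not, Set.mem_ofPred_eq] at hx
    obtain ⟨i, y, e⟩ := hx
    exact (h.mem i x y e).1
  have b1 : ∀ᶠ i in Filter.atTop, ∀ p ∈ persist R, p ∈ R i :=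
    (Filter.eventually_all_finite a1).2 (fun p ⟨i, hi⟩ => Filter.eventually_atTop.2 ⟨i, hi⟩)
  have b2 : ∀ᶠ i in Filter.atTop, ∀ x ∈ {x | ¬ Nv R x}, ∃ y, (x, y) ∈ R i :=
    (Filter.eventually_all_finite a2).2 (fun x hx => by
      simp only [Nv, not_forall, not_not, Set.mem_ofPred_eq] at hx
      obtain ⟨i, y, e⟩ := hx
      exact Filter.eventually_atTop.2 ⟨i, h.f1 e⟩)
  obtain ⟨T, hT⟩ := Filter.eventually_atTop.1 (b1.and b2)
  exact ⟨T, fun i hi => ⟨(hT i hi).1, (hT i hi).2⟩⟩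

theorem loc1 {t a b : V} (ha : (t, a) ∈ persist R) (hb : (t, b) ∈ persist R) (hab : a ≠ b)
    (na : ¬ Nv R a) : ∃ v, ReflTransGen (fun x y => (x, y) ∈ persist R) a v ∧
      ReflTransGen (fun x y => (x, y) ∈ persist R) b v := by
  obtain ⟨T, hT⟩ := h.late
  have pT := fun i hi => (hT i hi).1
  have rT := fun i hi => (hT i hi).2
  have ta : t ≠ a := fun e => h.c1 (e ▸ pT T le_rfl ha)
  have tb : t ≠ b := fun e => h.c1 (e ▸ pT T le_rfl hb)
  obtain ⟨d, hd⟩ := h.four t a b ta tb hab (h.mem T _ _ (pT T le_rfl ha)).1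
    (h.mem T _ _ (pT T le_rfl ha)).2 (h.mem T _ _ (pT T le_rfl hb)).2
  have tgt : ∀ {i x y}, (x, y) ∈ R i → y = t ∨ y = a ∨ y = b ∨ y = d :=
    fun e => hd _ (h.mem _ _ _ e).2
  have oa : ∀ i, T ≤ i → (a, b) ∈ R i ∨ (a, d) ∈ R i := by
    intro i hi
    obtain ⟨y, hy⟩ := rT i hi a na
    rcases tgt hy with rfl | rfl | rfl | rfl
    · exact (h.c2 hy (pT i hi ha)).elim
    · exact (h.c1 hy).elim
    · exact Or.inl hy
    · exact Or.inr hy
  by_contra hn
  have nab : (a, b) ∉ persist R := fun e => hn ⟨b, .single e, .refl⟩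
  have nba : (b, a) ∉ persist R := fun e => hn ⟨a, .refl, .single e⟩
  by_cases nb : Nv R b
  · have xab : ∀ i, (a, b) ∉ R i := fun i e => nab (h.f2 e nb)
    have ad : (a, d) ∈ persist R := ⟨T, fun i hi => (oa i hi).resolve_left (xab i)⟩
    have nd : Nv R d := by
      by_contra nd
      obtain ⟨y, hy⟩ := rT T le_rfl d nd
      rcases tgt hy with rfl | rfl | rfl | rfl
      · exact h.c3 (pT T le_rfl ha) (pT T le_rfl ad) hy
      · exact h.c2 (pT T le_rfl ad) hy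
      · exact hn ⟨y, .head ad (.single (h.f2 hy nb)), .refl⟩
      · exact h.c1 hy
    have db : d ≠ b := fun e => nab (e ▸ ad)
    obtain ⟨j, hj⟩ := (h.fair t a b ha hb).resolve_left hab
    obtain ⟨k, c | c | ⟨u, c, c'⟩ | ⟨u, c⟩⟩ := h.out hj hab
    · exact xab _ c
    · exact nb _ _ c
    · rcases tgt c with rfl | rfl | rfl | rfl
      · have np : (a, u) ∉ persist R := fun e => h.c2 (pT T le_rfl e) (pT T le_rfl ha)
        obtain ⟨k', _, k1, k2⟩ := removed c np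
        obtain ⟨w, w1, w2⟩ := h.rule_out _ _ _ k1 k2
        rcases tgt w1 with rfl | rfl | rfl | rfl
        · exact h.c1 w1
        · exact h.c1 w2
        · exact xab _ w2
        · exact h.f4 nd nb db w1 (pT T le_rfl hb)
      · exact h.c1 c
      · exact xab _ c
      · exact h.f3 nd nb db _ c'
    · exact nb _ _ c
  · have ob : ∀ i, T ≤ i → (b, a) ∈ R i ∨ (b, d) ∈ R i := by
      intro i hi
      obtain ⟨y, hy⟩ := rT i hi b nb
      rcases tgt hy with rfl | rfl | rfl | rfl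
      · exact (h.c2 hy (pT i hi hb)).elim
      · exact Or.inl hy
      · exact (h.c1 hy).elim
      · exact Or.inr hy
    have nd : Nv R d := by
      by_contra nd
      obtain ⟨gt, _, g2, g3⟩ := h.ord T
      obtain ⟨m, hm, hmin⟩ := g2.has_min K ⟨t, (h.mem T _ _ (pT T le_rfl ha)).1⟩
      have : ∃ y, (m, y) ∈ R T := by
        rcases hd m hm with rfl | rfl | rfl | rfl
        · exact ⟨a, pT T le_rfl ha⟩
        · exact rT T le_rfl _ na
        · exact rT T le_rfl _ nb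
        · exact rT T le_rfl _ nd
      obtain ⟨y, hy⟩ := this
      exact hmin y (h.mem _ _ _ hy).2 (g3 _ _ hy)
    by_cases ad : (a, d) ∈ persist R
    · by_cases bd : (b, d) ∈ persist R
      · exact hn ⟨d, .single ad, .single bd⟩
      · exact nba ⟨T, fun i hi => (ob i hi).resolve_right (fun e => bd (h.f2 e nd))⟩
    · exact nab ⟨T, fun i hi => (oa i hi).resolve_right (fun e => ad (h.f2 e nd))⟩

theorem conf : ∀ u s t, ReflTransGen (fun x y => (x, y) ∈ persist R) u s →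
    ReflTransGen (fun x y => (x, y) ∈ persist R) u t →
    ∃ v, ReflTransGen (fun x y => (x, y) ∈ persist R) s v ∧
      ReflTransGen (fun x y => (x, y) ∈ persist R) t v := by
  obtain ⟨T, hT⟩ := h.late
  obtain ⟨gt, _, g2, g3⟩ := h.ord T
  refine newman (Subrelation.wf (fun {x y} e => g3 _ _ ((hT T le_rfl).1 e)) g2) ?_
  intro t a b ha hb
  by_cases hab : a = b
  · exact ⟨a, .refl, hab ▸ .refl⟩
  by_cases na : Nv R a
  · by_cases nb : Nv R b
    · exact (h.f4 na nb hab ((hT T le_rfl).1 ha) ((hT T le_rfl).1 hb)).elim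
    · obtain ⟨v, v1, v2⟩ := h.loc1 hb ha (Ne.symm hab) nb
      exact ⟨v, v2, v1⟩
  · exact h.loc1 ha hb hab na

end Abs

variable {F : Type} {ar : F → ℕ}

def cst (f : F) (h : ar f = 0) : Tm ar := .app f (fun i => (by have := i.2; omega : False).elim)

theorem app_eq_cst {f : F} (h : ar f = 0) (a : Fin (ar f) → Tm ar) : Tm.app f a = cst f h := by
  unfold cst
  congr 1
  funext i
  have := i.2
  omega

@[simp] theorem cst_sub {f : F} (h : ar f = 0) (σ : ℕ → Tm ar) : (cst f h).sub σ = cst f h :=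
  app_eq_cst h _

theorem cst_inj {f g : F} {h : ar f = 0} {h' : ar g = 0} (e : cst f h = cst g h') : f = g :=
  app_hd e

theorem four_safe (h0 : ∀ f, ar f = 0) (hc : ENat.card F ≤ 4) {E : ℕ → Set (Sym2 (Tm ar))}
    {R : ℕ → Set (Tm ar × Tm ar)} (hr : IsRun E R) (hF : Fair E (persist R))
    (hE : persist E = ∅) : Confluent (persist R) := by
  classical
  have hfin : Finite F := ENat.card_lt_top.1 (lt_of_le_of_lt hc (by decide))
  have hole : ∀ C : Ctx ar, C = .hole := by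
    intro C
    cases C with
    | hole => rfl
    | app f a i C => have := i.2; have := h0 f; omega
  have hmem : ∀ i s t, (s, t) ∈ R i →
      s ∈ Set.range (fun f => cst f (h0 f)) ∧ t ∈ Set.range (fun f => cst f (h0 f)) := by
    intro i s t e
    obtain ⟨gt, g1, g2⟩ := hr.ord i
    cases s with
    | var x => exact (g1.not_var (g2 _ _ e)).elim
    | app f a =>
      refine ⟨⟨f, (app_eq_cst _ _).symm⟩, ?_⟩
      cases t with
      | var x =>
        obtain ⟨C, hC⟩ := g1.occ (g2 _ _ e) ⟨.hole, rfl⟩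
        rw [hole C] at hC
        simp at hC
      | app g b => exact ⟨g, (app_eq_cst _ _).symm⟩
  have hrew : ∀ (S : Set (Tm ar × Tm ar)), (∀ p ∈ S, ∃ i, p ∈ R i) → ∀ s t, Rew S s t →
      (s, t) ∈ S := by
    rintro S hS s t ⟨l, r, C, σ, c1, rfl, rfl⟩
    obtain ⟨i, hi⟩ := hS _ c1
    obtain ⟨⟨f, rfl⟩, ⟨g, rfl⟩⟩ := hmem i l r hi
    rw [hole C]
    simpa using c1
  have hP : ∀ p ∈ persist R, ∃ i, p ∈ R i := fun p ⟨i, hi⟩ => ⟨i, hi i le_rfl⟩
  have hA : Abs (Set.range (fun f => cst f (h0 f))) E R := by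
    refine ⟨Set.finite_range _, ?_, ?_, hmem, ?_, ?_, ?_, hE⟩
    · rintro _ _ _ ta tb ab ⟨t, rfl⟩ ⟨a, rfl⟩ ⟨b, rfl⟩
      have ta' : t ≠ a := fun e => ta (by subst e; rfl)
      have tb' : t ≠ b := fun e => tb (by subst e; rfl)
      have ab' : a ≠ b := fun e => ab (by subst e; rfl)
      have := Fintype.ofFinite F
      have hc' : Fintype.card F ≤ 4 := by
        rw [ENat.card_eq_coe_fintype_card] at hc
        exact_mod_cast hc
      have c3 : ({t, a, b} : Finset F).card = 3 := Finset.card_eq_three.2 ⟨t, a, b, ta', tb', ab', rfl⟩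
      have c4 : (({t, a, b} : Finset F)ᶜ).card ≤ 1 := by rw [Finset.card_compl, c3]; omega
      have : Nonempty F := ⟨t⟩
      obtain ⟨d, hd⟩ := Finset.card_le_one_iff_subset_singleton.1 c4
      refine ⟨cst d (h0 d), ?_⟩
      rintro _ ⟨x, rfl⟩
      by_cases hx : x ∈ ({t, a, b} : Finset F)
      · simp only [Finset.mem_insert, Finset.mem_singleton] at hx
        rcases hx with rfl | rfl | rfl <;> simp
      · obtain rfl := Finset.mem_singleton.1 (hd (Finset.mem_compl.2 hx))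
        simp
    · intro i
      obtain ⟨gt, g1, g2⟩ := hr.ord i
      exact ⟨gt, g1.1, g1.2.1, g2⟩
    · intro k e a b
      obtain ⟨s, t, e1, hc⟩ := hr.eq_out a b
      refine ⟨s, t, e1, hc.imp id (Or.imp id ?_)⟩
      rintro ⟨u, u1, u2⟩
      exact ⟨u, hrew _ (fun p hp => ⟨k, hp⟩) _ _ u1, u2⟩
    · intro k s t a b
      rcases hr.rule_out a b with ⟨u, u1, u2⟩ | ⟨u, l, r, c1, c2, c3, _⟩
      · exact ⟨u, hrew _ (fun p hp => ⟨k, hp⟩) _ _ u1, u2⟩
      · have := hrew _ (fun p hp => ⟨k, by rw [Set.mem_singleton_iff.1 hp]; exact c1⟩) _ _ c2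
        obtain ⟨rfl, rfl⟩ := Prod.mk.inj (Set.mem_singleton_iff.1 this)
        exact (c3 ⟨.hole, Tm.var, by simp⟩).elim
    · intro t a b ha hb
      obtain ⟨i, hi⟩ := hP _ ha
      obtain ⟨i', hi'⟩ := hP _ hb
      obtain ⟨⟨f, rfl⟩, ⟨g, rfl⟩⟩ := hmem i _ _ hi
      obtain ⟨_, ⟨g', rfl⟩⟩ := hmem i' _ _ hi'
      obtain ⟨σ₁, σ₂, _, _, p⟩ := hF _ _ _ _ (cst f (h0 f)) .hole hb ha rfl
        (fun x => by simp [cst]) ⟨Tm.var, Tm.var, rfl⟩
      simpa using p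
  intro u s t hs ht
  have e : Rew (persist R) = fun x y => (x, y) ∈ persist R := by
    funext x y
    exact propext ⟨hrew _ hP x y, Rew.rule⟩
  rw [e] at hs ht ⊢
  exact hA.conf u s t hs ht

end KBC
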