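import Pool.Agent.P.MP_14079b_lc.Sim

set_option autoImplicit false

namespace KBC

open Relation

variable {F : Type} {ar : F → ℕ}

theorem wt_cst (W : F → ℕ) {f : F} (h : ar f = 0) : wt W (cst f h : Tm ar) = W f := by
  have : IsEmpty (Fin (ar f)) := ⟨fun i => by have := i.2; omega⟩
  simp [cst, wt]

theorem bad_five (c : Fin 5 → F) (hc : Function.Injective c) (h0 : ∀ i, ar (c i) = 0) :
    Bad ar := by
  classical
  have hw : ∀ w : Fin 5 → ℕ, ∃ W : F → ℕ, ∀ i, W (c i) = w i :=
    fun w => ⟨Function.extend c w 0, fun i => hc.extend_apply _ _ _⟩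
  obtain ⟨W1, e1⟩ := hw ![4, 3, 0, 2, 1]
  obtain ⟨W2, e2⟩ := hw ![3, 2, 0, 4, 1]
  refine pat_bad (fun i => cst (c i) (h0 i)) (fun j x h => by simp [cst] at h) ?_ (wt_ord W1)
    (wt_ord W2) ?_ ?_
  · intro i j C u σ τ e nv e'
    cases C with
    | hole =>
      obtain rfl : cst (c i) (h0 i) = u := e
      rw [cst_sub, cst_sub] at e'
      exact ⟨rfl, hc (cst_inj e')⟩
    | app f a k C =>
      obtain rfl : c i = f := app_hd e
      have := k.2
      have := h0 i
      omega
  · intro p hp σ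
    simp only [cst_sub, wt_cst, e1]
    revert p
    decide
  · intro p hp σ
    simp only [cst_sub, wt_cst, e2]
    revert p
    decide

/-- application of a unary symbol -/
def un (f : F) (t : Tm ar) : Tm ar := .app f (fun _ => t)

theorem upd_un {f : F} (hf : ar f = 1) (a : Fin (ar f) → Tm ar) (i : Fin (ar f)) (s : Tm ar) :
    Tm.app f (Function.update a i s) = un f s := by
  unfold un
  congr 1
  funext j
  obtain rfl : j = i := Fin.ext (by have := i.2; have := j.2; omega)
  simp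

theorem wt_un (W : F → ℕ) {f : F} (hf : ar f = 1) (n : ℕ) (t : Tm ar) :
    wt W ((un f)^[n] t) = n * W f + wt W t := by
  induction n with
  | zero => simp
  | succ n ih =>
    rw [Function.iterate_succ_apply', un, wt]
    simp [hf, ih]
    ring

theorem un_sub (f : F) (σ : ℕ → Tm ar) (n : ℕ) (t : Tm ar) :
    ((un f)^[n] t).sub σ = (un f)^[n] (t.sub σ) := by
  induction n with
  | zero => rfl
  | succ n ih => rw [Function.iterate_succ_apply', Function.iterate_succ_apply', ← ih]; rfl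

theorem rew_un {f : F} (hf : ar f = 1) {P : Set (Tm ar × Tm ar)} {s t : Tm ar} (h : Rew P s t)
    (n : ℕ) : Rew P ((un f)^[n] s) ((un f)^[n] t) := by
  induction n with
  | zero => exact h
  | succ n ih =>
    have := ih.ctx (.app f (fun _ => s) ⟨0, by omega⟩ .hole) Tm.var
    simp only [fill_app, fill_hole, sub_id, upd_un hf] at this
    rwa [Function.iterate_succ_apply', Function.iterate_succ_apply']

theorem un_fill {f c : F} (hf : ar f = 1) (hc : ar c = 0) {u : Tm ar} (C : Ctx ar) : ∀ n : ℕ,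
    (un f)^[n] (cst c hc) = C.fill u → ∃ k m, n = k + m ∧ u = (un f)^[m] (cst c hc) ∧
      ∀ σ x, (C.sub σ).fill x = (un f)^[k] x := by
  induction C with
  | hole => exact fun n h => ⟨0, n, by simp, h.symm, fun _ _ => rfl⟩
  | app g a i C ih =>
    intro n h
    cases n with
    | zero =>
      obtain rfl : c = g := app_hd h
      have := i.2
      omega
    | succ n =>
      rw [Function.iterate_succ_apply'] at h
      obtain rfl : f = g := app_hd h
      rw [fill_app, upd_un hf] at h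
      obtain ⟨k, m, e1, e2, e3⟩ := ih n (congrFun (app_inj h) i)
      refine ⟨k + 1, m, by omega, e2, fun σ x => ?_⟩
      rw [csub_app, fill_app, upd_un hf, e3, Function.iterate_succ_apply']

def uE : Finset (Sym2 (Bool × ℕ)) :=
  {s((true, 0), (false, 2)), s((true, 1), (false, 1)), s((true, 2), (false, 1)),
    s((true, 2), (false, 2))}

def uM : List (Mv (Bool × ℕ)) :=
  [.ori (false, 2) (true, 2), .sim (false, 2) (true, 0) (true, 2), .ori (true, 2) (false, 1),
    .cmp (false, 2) (true, 2) (false, 1), .ori (true, 1) (false, 1), .ori (true, 2) (true, 0),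
    .col (true, 2) (false, 1) (false, 2) (true, 1) (false, 1),
    .sim (false, 2) (false, 1) (false, 1), .del (false, 1)]

def uR : Finset ((Bool × ℕ) × (Bool × ℕ)) :=
  {((false, 2), (false, 1)), ((true, 1), (false, 1)), ((true, 2), (true, 0))}

theorem bad_un (f a b : F) (hf : ar f = 1) (ha : ar a = 0) (hb : ar b = 0) (hab : a ≠ b) :
    Bad ar := by
  classical
  have fa : f ≠ a := fun e => by rw [e] at hf; omega
  have fb : f ≠ b := fun e => by rw [e] at hf; omega
  let c : Bool → F := fun j => if j then a else b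
  have hc : ∀ j, ar (c j) = 0 := fun j => by cases j <;> simp [c, ha, hb]
  let G : Bool × ℕ → Tm ar := fun p => (un f)^[p.2] (cst (c p.1) (hc p.1))
  have gs : ∀ p σ, (G p).sub σ = G p := fun p σ => by simp only [G, un_sub, cst_sub]
  let W : ℕ → ℕ → ℕ → F → ℕ := fun x y z g => if g = f then x else if g = a then y else z
  have gw : ∀ x y z p, wt (W x y z) (G p) = p.2 * x + if p.1 then y else z := by
    intro x y z p
    simp only [G, wt_un _ hf, wt_cst]
    rcases p with ⟨_ | _, n⟩ <;> simp [W, c, fa.symm, fb.symm, hab.symm]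
  have hG : Function.Injective G := by
    rintro ⟨j, n⟩ ⟨j', n'⟩ e
    have e1 := congrArg (wt (W 1 0 0)) e
    have e2 := congrArg (wt (W 0 1 0)) e
    rw [gw, gw] at e1 e2
    cases j <;> cases j' <;> simp_all
  have gk : ∀ k j m, (un f)^[k] (G (j, m)) = G (j, k + m) := fun k j m => by
    simp only [G, Function.iterate_add_apply]
  have h1 : ∀ (r : Finset ((Bool × ℕ) × (Bool × ℕ))) (x y : Bool × ℕ),
      decide (∃ p ∈ r, p.1.1 = x.1 ∧ p.1.2 ≤ x.2 ∧ y.1 = p.2.1 ∧
        y.2 + p.1.2 = x.2 + p.2.2) = true → Rew (imR G r) (G x) (G y) := by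
    rintro r ⟨x1, x2⟩ ⟨y1, y2⟩ h
    obtain ⟨⟨⟨l1, l2⟩, r1, r2⟩, hp, e1, e2, e3, e4⟩ := of_decide_eq_true h
    simp only at e1 e2 e3 e4
    subst e1 e3
    have := rew_un hf (Rew.rule (R := imR G r) ⟨_, hp, rfl⟩) (x2 - l2)
    simp only [gk] at this
    rwa [show x2 - l2 + l2 = x2 by omega, show x2 - l2 + r2 = y2 by omega] at this
  have hr := run_of (cl := fun x y => decide (x.2 < y.2))
    (gt₁ := fun x y => decide (y.2 * 2 + (if y.1 then 0 else 1) < x.2 * 2 + if x.1 then 0 else 1))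
    (gt₂ := fun x y => decide (y.2 * 2 + (if y.1 then 1 else 0) < x.2 * 2 + if x.1 then 1 else 0))
    hG (wt_ord (W 2 0 1)) (wt_ord (W 2 1 0)) h1
    (fun x y h => not_enc (W 1 0 0) (by rw [gw, gw]; simpa using h))
    (fun x y h σ => by rw [gs, gs, gw, gw]; exact of_decide_eq_true h)
    (fun x y h σ => by rw [gs, gs, gw, gw]; exact of_decide_eq_true h)
    uE uM 4 (by decide) (by decide) (by decide)
  obtain ⟨p1, p2⟩ := persist_st uE uM G
  have f1 : (st uE uM uM.length).1 = ∅ := by decide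
  have f2 : (st uE uM uM.length).2 = uR := by decide
  rw [f1] at p1
  rw [f2] at p2
  have nf : ∀ i x, (∀ p ∈ uR, p.1.1 = i.1 → i.2 < p.1.2) → ¬ Rew (imR G uR) (G i) x := by
    rintro i x hi ⟨l, r, C, σ, ⟨p, hp, e⟩, e', _⟩
    obtain ⟨rfl, rfl⟩ := Prod.mk.inj e
    rw [gs] at e'
    obtain ⟨k, m, e1, e2, _⟩ := un_fill hf (hc i.1) C i.2 e'
    have e3 : p.1 = (i.1, m) := hG e2
    have := hi p hp (by rw [e3])
    rw [e3] at this
    simp only at this
    omega
  refine ⟨_, _, hr, ?_, by rw [p1]; simp [imE], ?_⟩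
  · rw [p2]
    rintro l₁ r₁ l₂ r₂ u C ⟨p, hp, e⟩ ⟨q, hq, e'⟩ c1 c2 ⟨τ₁, τ₂, c3⟩
    obtain ⟨rfl, rfl⟩ := Prod.mk.inj e
    obtain ⟨rfl, rfl⟩ := Prod.mk.inj e'
    obtain ⟨k, m, e1, e2, e3⟩ := un_fill hf (hc p.1.1) C p.1.2 c1
    have e4 : u = G (p.1.1, m) := e2
    subst e4
    rw [gs, gs] at c3
    have e5 : (p.1.1, m) = q.1 := hG c3
    refine ⟨Tm.var, Tm.var, by rw [c3], fun ρ₁ ρ₂ _ => ⟨ρ₁, by simp only [gs], by simp only [gs]⟩,
      ?_⟩
    have key : ∀ p ∈ uR, ∀ q ∈ uR, p.1.1 = q.1.1 → q.1.2 ≤ p.1.2 →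
        (q.2.1, p.1.2 - q.1.2 + q.2.2) = p.2 ∨
          s((q.2.1, p.1.2 - q.1.2 + q.2.2), p.2) ∈ (st uE uM 0).1 := by decide
    have e6 : q.1.2 = m := by rw [← e5]
    have e7 : (un f)^[k] (G q.2) = G (q.2.1, p.1.2 - q.1.2 + q.2.2) := by
      rw [show p.1.2 - q.1.2 = k by omega, ← gk]
    simp only [e3, gs, e7]
    rcases key p hp q hq (by rw [← e5]) (by omega) with k' | k'
    · exact Or.inl (by rw [k'])
    · exact Or.inr ⟨0, _, k', rfl⟩
  · rw [p2]
    exact not_conf (u := G (true, 2)) (s := G (true, 0)) (t := G (false, 1))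
      (.single (h1 _ _ _ (by decide)))
      (.head (b := G (false, 2)) (h1 _ _ _ (by decide)) (.single (h1 _ _ _ (by decide))))
      (fun x => nf _ x (by decide)) (fun x => nf _ x (by decide))
      (fun e => by simpa using hG e)

end KBC
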