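import Pool.Agent.P.MP_14079b_lc.Basic

set_option autoImplicit false

namespace KBC

open Relation

variable {F : Type} {ar : F → ℕ}

def Join (P : Set (Tm ar × Tm ar)) (s t : Tm ar) : Prop :=
  ∃ v, ReflTransGen (Rew P) s v ∧ ReflTransGen (Rew P) t v

def CRat (P : Set (Tm ar × Tm ar)) (u : Tm ar) : Prop :=
  ∀ s t, ReflTransGen (Rew P) u s → ReflTransGen (Rew P) u t → Join P s t

theorem Join.symm {P : Set (Tm ar × Tm ar)} {s t : Tm ar} (h : Join P s t) : Join P t s := by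
  obtain ⟨v, a, b⟩ := h
  exact ⟨v, b, a⟩

theorem Join.refl {P : Set (Tm ar × Tm ar)} (s : Tm ar) : Join P s s := ⟨s, .refl, .refl⟩

theorem Join.trans {P : Set (Tm ar × Tm ar)} {a b c : Tm ar} (h1 : Join P a b) (h2 : Join P b c)
    (hb : CRat P b) : Join P a c := by
  obtain ⟨v, a1, a2⟩ := h1
  obtain ⟨w, b1, b2⟩ := h2
  obtain ⟨z, c1, c2⟩ := hb v w a2 b1
  exact ⟨z, a1.trans c1, b2.trans c2⟩

theorem persist_rew {R : ℕ → Set (Tm ar × Tm ar)} {s t : Tm ar} (h : Rew (persist R) s t) :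
    ∃ i, Rew (R i) s t := by
  obtain ⟨l, r, C, σ, ⟨i, hi⟩, h2, h3⟩ := h
  exact ⟨i, l, r, C, σ, hi i le_rfl, h2, h3⟩

section
variable {E : ℕ → Set (Sym2 (Tm ar))} {R : ℕ → Set (Tm ar × Tm ar)}

def Good (R : ℕ → Set (Tm ar × Tm ar)) (u : Tm ar) : Prop :=
  CRat (persist R) u ∧ ∀ i v, Rew (R i) u v → Join (persist R) u v

theorem huet_eq (hr : IsRun E R) (hE : persist E = ∅) (h : Tm ar → ℕ)
    (hA : ∀ i s t, Rew (R i) s t → h t < h s) (n : ℕ) (hG : ∀ u, h u < n → Good R u)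
    (C : Ctx ar) (σ : ℕ → Tm ar) :
    ∀ (m : ℕ) (a b : Tm ar) (j : ℕ), s(a, b) ∈ E j → h (C.fill (a.sub σ)) < n →
      h (C.fill (b.sub σ)) < n → h (C.fill (a.sub σ)) + h (C.fill (b.sub σ)) < m →
      Join (persist R) (C.fill (a.sub σ)) (C.fill (b.sub σ)) := by
  intro m
  induction m with
  | zero => intro a b j _ _ _ h3; omega
  | succ m ih =>
    intro a b j hj h1 h2 h3
    obtain ⟨k, _, k1, k2⟩ := removed hj (by rw [hE]; exact Set.notMem_empty _)
    obtain ⟨s, t, e, hc⟩ := hr.eq_out k1 k2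
    have key : h (C.fill (s.sub σ)) < n → h (C.fill (t.sub σ)) < n →
        h (C.fill (s.sub σ)) + h (C.fill (t.sub σ)) < m + 1 →
        Join (persist R) (C.fill (s.sub σ)) (C.fill (t.sub σ)) := by
      intro g1 g2 g3
      rcases hc with hc | rfl | ⟨u, hu, hu2⟩
      · exact (hG _ g1).2 _ _ ((Rew.rule hc).ctx C σ)
      · exact Join.refl _
      · have s1 := hu.ctx C σ
        have s2 := hA _ _ _ s1
        exact ((hG _ g1).2 _ _ s1).trans (ih u t _ hu2 (by omega) g2 (by omega))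
          (hG _ (by omega)).1
    rcases Sym2.eq_iff.1 e with ⟨rfl, rfl⟩ | ⟨rfl, rfl⟩
    · exact key h1 h2 h3
    · exact (key h2 h1 (by omega)).symm

theorem huet_rule (hr : IsRun E R) (hE : persist E = ∅) (h sz : Tm ar → ℕ)
    (hA : ∀ i s t, Rew (R i) s t → h t < h s)
    (hB : ∀ l s : Tm ar, Encomp s l → ¬ Encomp l s → sz l < sz s)
    (u : Tm ar) (hG : ∀ w, h w < h u → Good R w) :
    ∀ (p : ℕ) (l : Tm ar), sz l < p → ∀ (q : ℕ) (r : Tm ar), h r < q → ∀ (i : ℕ) (C : Ctx ar)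
      (σ : ℕ → Tm ar), (l, r) ∈ R i → u = C.fill (l.sub σ) →
      ∃ w, Rew (persist R) u w ∧ Join (persist R) w (C.fill (r.sub σ)) := by
  intro p
  induction p with
  | zero => intro l hl; omega
  | succ p ihp =>
    intro l hl q
    induction q with
    | zero => intro r hq; omega
    | succ q ihq =>
      intro r hq i C σ hi hu
      by_cases hp : (l, r) ∈ persist R
      · exact ⟨_, ⟨l, r, C, σ, hp, hu, rfl⟩, Join.refl _⟩
      have hv : h (C.fill (r.sub σ)) < h u := by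
        rw [hu]; exact hA i _ _ ((Rew.rule hi).ctx C σ)
      obtain ⟨k, _, k1, k2⟩ := removed hi hp
      rcases hr.rule_out k1 k2 with ⟨r', c1, c2⟩ | ⟨l', l₂, r₂, c1, c2, c3, c4⟩
      · have := hA _ _ _ c1
        obtain ⟨w, w1, w2⟩ := ihq r' (by omega) _ C σ c2 hu
        have s1 := c1.ctx C σ
        have s2 := hA _ _ _ s1
        exact ⟨w, w1, w2.trans ((hG _ hv).2 _ _ s1).symm (hG _ (by omega)).1⟩
      · obtain ⟨l₃, r₃, D, τ, d1, d2, d3⟩ := c2
        obtain ⟨rfl, rfl⟩ := Prod.mk.inj (Set.mem_singleton_iff.1 d1)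
        have hs := hB l₃ l ⟨D, τ, d2⟩ c3
        have e1 : u = (C.comp (D.sub σ)).fill (l₃.sub (fun x => (τ x).sub σ)) := by
          rw [hu, d2, fill_comp, fill_sub, sub_sub]
        have e2 : (C.comp (D.sub σ)).fill (r₃.sub (fun x => (τ x).sub σ)) = C.fill (l'.sub σ) := by
          rw [d3, fill_comp, fill_sub, sub_sub]
        obtain ⟨w, w1, w2⟩ := ihp l₃ (by omega) (h r₃ + 1) r₃ (by omega) k _ _ c1 e1
        have hv' : h (C.fill (l'.sub σ)) < h u := by
          rw [← e2, e1]; exact hA k _ _ ⟨l₃, r₃, _, _, c1, rfl, rfl⟩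
        rw [e2] at w2
        exact ⟨w, w1, w2.trans (huet_eq hr hE h hA (h u) hG C σ _ l' r _ c4 hv' hv
          (Nat.lt_succ_self _)) (hG _ hv').1⟩

theorem huet (hr : IsRun E R) (hE : persist E = ∅) (h sz : Tm ar → ℕ)
    (hA : ∀ i s t, Rew (R i) s t → h t < h s)
    (hB : ∀ l s : Tm ar, Encomp s l → ¬ Encomp l s → sz l < sz s)
    (hC : ∀ u s t, Rew (persist R) u s → Rew (persist R) u t → Join (persist R) s t ∨
      ∃ (j : ℕ) (a b : Tm ar) (C : Ctx ar) (σ : ℕ → Tm ar),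
        s(a, b) ∈ E j ∧ s = C.fill (a.sub σ) ∧ t = C.fill (b.sub σ)) :
    Confluent (persist R) := by
  have hA' : ∀ s t, Rew (persist R) s t → h t < h s := fun s t hs => by
    obtain ⟨i, hi⟩ := persist_rew hs
    exact hA i _ _ hi
  have hA2 : ∀ s t, ReflTransGen (Rew (persist R)) s t → h t ≤ h s := fun s t hs => by
    induction hs with
    | refl => exact le_rfl
    | tail _ b ih => exact (hA' _ _ b).le.trans ih
  have main : ∀ n u, h u < n → Good R u := by
    intro n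
    induction n with
    | zero => intro u hu; omega
    | succ n ih =>
      intro u hu
      have hG : ∀ w, h w < h u → Good R w := fun w hw => ih w (by omega)
      refine ⟨?_, ?_⟩
      · intro s t hs ht
        rcases hs.cases_head with rfl | ⟨w₁, a1, a2⟩
        · exact ⟨t, ht, .refl⟩
        rcases ht.cases_head with rfl | ⟨w₂, b1, b2⟩
        · exact ⟨s, .refl, .head a1 a2⟩
        have g1 := hA' _ _ a1
        have g2 := hA' _ _ b1
        have hJ : Join (persist R) w₁ w₂ := by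
          rcases hC _ _ _ a1 b1 with hJ | ⟨j, a, b, C, σ, c1, rfl, rfl⟩
          · exact hJ
          · exact huet_eq hr hE h hA (h u) hG C σ _ a b j c1 g1 g2 (Nat.lt_succ_self _)
        have j1 : Join (persist R) s w₁ := ⟨s, .refl, a2⟩
        have j2 : Join (persist R) w₂ t := ⟨t, b2, .refl⟩
        exact (j1.trans hJ (hG _ g1).1).trans j2 (hG _ g2).1
      · rintro i v ⟨l, r, C, σ, c1, c2, rfl⟩
        obtain ⟨w, w1, z, z1, z2⟩ := huet_rule hr hE h sz hA hB u hG _ l (Nat.lt_succ_self _) _ r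
          (Nat.lt_succ_self _) i C σ c1 c2
        exact ⟨z, .head w1 z1, z2⟩
  intro u s t hs ht
  exact (main _ u (Nat.lt_succ_self _)).1 s t hs ht

end

end KBC
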