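import Pool.Agent.P.MP_14079b_lc.Four

set_option autoImplicit false

namespace KBC

open Relation

variable {F : Type} {ar : F → ℕ}

/-- additive weight -/
def wt (W : F → ℕ) : Tm ar → ℕ
  | .var _ => 0
  | .app f a => W f + ∑ i, wt W (a i)

theorem sum_upd {n : ℕ} (g : Tm ar → ℕ) (a : Fin n → Tm ar) (i : Fin n) (x : Tm ar) :
    ∑ j, g (Function.update a i x j) = g x + ∑ j ∈ Finset.univ \ {i}, g (a j) := by
  have : (fun j => g (Function.update a i x j)) = Function.update (fun j => g (a j)) i (g x) := by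
    funext j
    by_cases h : j = i
    · subst h; simp
    · simp [Function.update_of_ne h]
  rw [this, Finset.sum_update_of_mem (Finset.mem_univ i)]

theorem wt_fill (W : F → ℕ) (C : Ctx ar) : ∃ c, ∀ u, wt W (C.fill u) = c + wt W u := by
  induction C with
  | hole => exact ⟨0, by simp⟩
  | app f a i C ih =>
    obtain ⟨c, hc⟩ := ih
    exact ⟨W f + c + ∑ j ∈ Finset.univ \ {i}, wt W (a j), fun u => by
      rw [fill_app, wt, sum_upd, hc]; ring⟩

theorem wt_sub (W : F → ℕ) (σ : ℕ → Tm ar) (t : Tm ar) : wt W t ≤ wt W (t.sub σ) := by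
  induction t with
  | var x => simp [wt]
  | app f a ih => exact Nat.add_le_add_left (Finset.sum_le_sum (fun i _ => ih i)) _

theorem wt_ord (W : F → ℕ) :
    IsRedOrd (ar := ar) (fun s t => ∀ σ, wt W (t.sub σ) < wt W (s.sub σ)) := by
  refine ⟨fun s t u a b σ => (b σ).trans (a σ), ?_, ?_⟩
  · exact Subrelation.wf (r := InvImage (· < ·) (wt W)) (fun {x y} e => by have := e Tm.var; simp only [sub_id] at this; exact this)
      (InvImage.wf _ wellFounded_lt)
  · intro s t C σ h τ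
    obtain ⟨c, hc⟩ := wt_fill W (C.sub τ)
    rw [fill_sub, fill_sub, hc, hc, sub_sub, sub_sub]
    exact Nat.add_lt_add_left (h _) _

theorem not_enc {l s : Tm ar} (W : F → ℕ) (h : wt W l < wt W s) : ¬ Encomp l s := by
  rintro ⟨C, σ, rfl⟩
  obtain ⟨c, hc⟩ := wt_fill W C
  have := wt_sub W σ s
  rw [hc] at h
  omega

theorem persist_const {α : Type} {X : ℕ → Set α} {n : ℕ} (h : ∀ j, n ≤ j → X j = X n) :
    persist X = X n := by
  ext a
  constructor
  · rintro ⟨i, hi⟩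
    rw [← h (max i n) (le_max_right _ _)]
    exact hi _ (le_max_left _ _)
  · intro ha
    exact ⟨n, fun j hj => by rw [h j hj]; exact ha⟩

inductive Mv (ι : Type) : Type
  | ded : ι → ι → ι → Mv ι
  | ori : ι → ι → Mv ι
  | del : ι → Mv ι
  | sim : ι → ι → ι → Mv ι
  | cmp : ι → ι → ι → Mv ι
  | col : ι → ι → ι → ι → ι → Mv ι

section
variable {ι : Type} [DecidableEq ι]

def Mv.app : Mv ι → Finset (Sym2 ι) × Finset (ι × ι) → Finset (Sym2 ι) × Finset (ι × ι)
  | .ded _ s t, p => (insert s(s, t) p.1, p.2)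
  | .ori s t, p => (p.1.erase s(s, t), insert (s, t) p.2)
  | .del s, p => (p.1.erase s(s, s), p.2)
  | .sim s t u, p => (insert s(u, t) (p.1.erase s(s, t)), p.2)
  | .cmp s t u, p => (p.1, insert (s, u) (p.2.erase (s, t)))
  | .col s t u _ _, p => (insert s(u, t) p.1, p.2.erase (s, t))

def Mv.ok (rw : Finset (ι × ι) → ι → ι → Bool) (cl gt : ι → ι → Bool) :
    Mv ι → Finset (Sym2 ι) × Finset (ι × ι) → Bool
  | .ded u s t, p => rw p.2 u s && rw p.2 u t
  | .ori s t, p => decide (s(s, t) ∈ p.1) && gt s t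
  | .del s, p => decide (s(s, s) ∈ p.1)
  | .sim s t u, p => decide (s(s, t) ∈ p.1) && rw p.2 s u
  | .cmp s t u, p => decide ((s, t) ∈ p.2) && rw p.2 t u
  | .col s t u l r, p => decide ((s, t) ∈ p.2) && decide ((l, r) ∈ p.2) && rw {(l, r)} s u && cl l s

def st (e : Finset (Sym2 ι)) (ms : List (Mv ι)) (i : ℕ) : Finset (Sym2 ι) × Finset (ι × ι) :=
  (ms.take i).foldl (fun p m => m.app p) (e, ∅)

def imE (G : ι → Tm ar) (e : Finset (Sym2 ι)) : Set (Sym2 (Tm ar)) := Sym2.map G '' e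

def imR (G : ι → Tm ar) (r : Finset (ι × ι)) : Set (Tm ar × Tm ar) := Prod.map G G '' r

theorem mv_sound {G : ι → Tm ar} (hG : Function.Injective G)
    {rw : Finset (ι × ι) → ι → ι → Bool} {cl gt : ι → ι → Bool} {g : Tm ar → Tm ar → Prop}
    (h1 : ∀ r x y, rw r x y = true → Rew (imR G r) (G x) (G y))
    (h2 : ∀ x y, cl x y = true → ¬ Encomp (G x) (G y))
    (h3 : ∀ x y, gt x y = true → g (G x) (G y)) (m : Mv ι) (p : Finset (Sym2 ι) × Finset (ι × ι))
    (h : m.ok rw cl gt p = true) :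
    Infer g (imE G p.1) (imR G p.2) (imE G (m.app p).1) (imR G (m.app p).2) := by
  have iE : Function.Injective (Sym2.map G) := Sym2.map.injective hG
  have iR : Function.Injective (Prod.map G G) := hG.prodMap hG
  have a1 : ∀ e s t, imE G (insert s(s, t) e) = insert s(G s, G t) (imE G e) := by
    intro e s t; simp [imE, Set.image_insert_eq]
  have a2 : ∀ (e : Finset (Sym2 ι)) s t, imE G (e.erase s(s, t)) = imE G e \ {s(G s, G t)} := by
    intro e s t; simp [imE, Set.image_sdiff iE]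
  have a3 : ∀ e s t, imR G (insert (s, t) e) = insert (G s, G t) (imR G e) := by
    intro e s t; simp [imR, Set.image_insert_eq]
  have a4 : ∀ (e : Finset (ι × ι)) s t, imR G (e.erase (s, t)) = imR G e \ {(G s, G t)} := by
    intro e s t; simp [imR, Set.image_sdiff iR]
  have a5 : ∀ s t, s(s, t) ∈ p.1 → s(G s, G t) ∈ imE G p.1 := fun s t h => ⟨_, h, rfl⟩
  have a6 : ∀ s t, (s, t) ∈ p.2 → (G s, G t) ∈ imR G p.2 := fun s t h => ⟨_, h, rfl⟩
  cases m <;> simp only [Mv.ok, Bool.and_eq_true, decide_eq_true_eq] at h <;>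
    simp only [Mv.app, a1, a2, a3, a4]
  · exact .deduce _ _ _ (h1 _ _ _ h.1) (h1 _ _ _ h.2)
  · exact .orient _ _ (a5 _ _ h.1) (h3 _ _ h.2)
  · exact .delete _ (a5 _ _ h)
  · exact .simplify _ _ _ (a5 _ _ h.1) (h1 _ _ _ h.2)
  · exact .compose _ _ _ (a6 _ _ h.1) (h1 _ _ _ h.2)
  · refine .collapse _ _ _ _ _ (a6 _ _ h.1.1.1) (a6 _ _ h.1.1.2) ?_ (h2 _ _ h.2)
    simpa [imR] using h1 _ _ _ h.1.2

theorem st_ge (e : Finset (Sym2 ι)) (ms : List (Mv ι)) {j : ℕ} (h : ms.length ≤ j) :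
    st e ms j = st e ms ms.length := by
  simp [st, List.take_of_length_le h]

theorem st_succ (e : Finset (Sym2 ι)) (ms : List (Mv ι)) {i : ℕ} (h : i < ms.length) :
    st e ms (i + 1) = ms[i].app (st e ms i) := by
  unfold st
  rw [List.take_succ_eq_append_getElem h, List.foldl_append]
  rfl

theorem run_of {G : ι → Tm ar} (hG : Function.Injective G)
    {rw : Finset (ι × ι) → ι → ι → Bool} {cl gt₁ gt₂ : ι → ι → Bool}
    {g₁ g₂ : Tm ar → Tm ar → Prop} (o1 : IsRedOrd g₁) (o2 : IsRedOrd g₂)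
    (h1 : ∀ r x y, rw r x y = true → Rew (imR G r) (G x) (G y))
    (h2 : ∀ x y, cl x y = true → ¬ Encomp (G x) (G y))
    (h3 : ∀ x y, gt₁ x y = true → g₁ (G x) (G y)) (h4 : ∀ x y, gt₂ x y = true → g₂ (G x) (G y))
    (e : Finset (Sym2 ι)) (ms : List (Mv ι)) (N : ℕ) (hN : N ≤ ms.length)
    (k1 : ∀ i : Fin ms.length, ms[i].ok rw cl (if i.1 < N then gt₁ else gt₂) (st e ms i) = true)
    (k2 : ∀ i : Fin (ms.length + 1), ∀ p ∈ (st e ms i).2,
      (if i.1 < N then gt₁ else gt₂) p.1 p.2 = true) :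
    IsRun (fun i => imE G (st e ms i).1) (fun i => imR G (st e ms i).2) := by
  have h5 : ∀ i : ℕ, ∀ x y, (if i < N then gt₁ else gt₂) x y = true →
      (if i < N then g₁ else g₂) (G x) (G y) := by
    intro i x y
    split_ifs
    exacts [h3 x y, h4 x y]
  refine ⟨(Finset.finite_toSet _).image _, by simp [st, imR],
    fun i => if i < N then g₁ else g₂, fun i => ⟨?_, ?_, ?_⟩⟩
  · show IsRedOrd (if i < N then g₁ else g₂)
    split_ifs
    exacts [o1, o2]
  · rintro l r ⟨p, hp, e'⟩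
    obtain ⟨rfl, rfl⟩ := Prod.mk.inj e'
    refine h5 i _ _ ?_
    by_cases hi : i < ms.length + 1
    · exact k2 ⟨i, hi⟩ p hp
    · rw [st_ge e ms (by omega)] at hp
      have := k2 ⟨ms.length, Nat.lt_succ_self _⟩ p hp
      rw [if_neg (by simp; omega)] at this
      rw [if_neg (by omega)]
      exact this
  · by_cases hi : i < ms.length
    · left
      show Infer _ _ _ (imE G (st e ms (i + 1)).1) (imR G (st e ms (i + 1)).2)
      rw [st_succ e ms hi]
      exact mv_sound hG h1 h2 (h5 i) _ _ (k1 ⟨i, hi⟩)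
    · right
      intro j hj
      simp only [st_ge e ms (show ms.length ≤ j by omega), st_ge e ms (show ms.length ≤ i by omega),
        and_self]

theorem persist_st (e : Finset (Sym2 ι)) (ms : List (Mv ι)) (G : ι → Tm ar) :
    persist (fun i => imE G (st e ms i).1) = imE G (st e ms ms.length).1 ∧
    persist (fun i => imR G (st e ms i).2) = imR G (st e ms ms.length).2 :=
  ⟨persist_const (X := fun i => imE G (st e ms i).1) (fun j hj => by simp only [st_ge e ms hj]),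
    persist_const (X := fun i => imR G (st e ms i).2) (fun j hj => by simp only [st_ge e ms hj])⟩

end

/-- a fair non-failing run with a non-confluent limit exists -/
def Bad {F : Type} (ar : F → ℕ) : Prop :=
  ∃ (E : ℕ → Set (Sym2 (Tm ar))) (R : ℕ → Set (Tm ar × Tm ar)),
    IsRun E R ∧ Fair E (persist R) ∧ persist E = ∅ ∧ ¬ Confluent (persist R)

theorem not_conf {P : Set (Tm ar × Tm ar)} {u s t : Tm ar} (h1 : ReflTransGen (Rew P) u s)
    (h2 : ReflTransGen (Rew P) u t) (n1 : ∀ x, ¬ Rew P s x) (n2 : ∀ x, ¬ Rew P t x) (ne : s ≠ t) :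
    ¬ Confluent P := by
  intro h
  obtain ⟨v, a, b⟩ := h u s t h1 h2
  rcases a.cases_head with rfl | ⟨x, c, _⟩
  · rcases b.cases_head with e | ⟨x, c, _⟩
    · exact ne e.symm
    · exact n2 x c
  · exact n1 x c

def patE : Finset (Sym2 (Fin 5)) := {s(0, 1), s(0, 2), s(1, 3), s(3, 4), s(3, 0)}

def patM : List (Mv (Fin 5)) :=
  [.ori 0 1, .ori 0 2, .ori 1 3, .ori 3 4, .ded 0 1 2, .sim 1 2 3, .cmp 1 3 4, .ori 3 0,
    .sim 3 2 0, .sim 0 2 2, .del 2, .ded 3 0 4, .sim 0 4 1, .sim 1 4 4, .del 4]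

def patL₁ : Finset (Fin 5 × Fin 5) := {(0, 1), (0, 2), (1, 3), (3, 4), (1, 4)}

def patL₂ : Finset (Fin 5 × Fin 5) := {(0, 1), (0, 2), (3, 0), (3, 4), (1, 4)}

theorem pat_bad (T : Fin 5 → Tm ar) (hv : ∀ j x, T j ≠ .var x)
    (ho : ∀ (i j : Fin 5) (C : Ctx ar) (u : Tm ar) (σ τ : ℕ → Tm ar), T i = C.fill u →
      (∀ x, u ≠ .var x) → u.sub σ = (T j).sub τ → C = .hole ∧ i = j)
    {g₁ g₂ : Tm ar → Tm ar → Prop} (o1 : IsRedOrd g₁) (o2 : IsRedOrd g₂)
    (h3 : ∀ p ∈ patL₁, g₁ (T p.1) (T p.2)) (h4 : ∀ p ∈ patL₂, g₂ (T p.1) (T p.2)) : Bad ar := by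
  have hT : Function.Injective T := fun i j e =>
    (ho i j .hole (T i) Tm.var Tm.var rfl (hv i) (by rw [e])).2
  have hr := run_of (rw := fun r x y => decide ((x, y) ∈ r)) (cl := fun _ _ => false)
    (gt₁ := fun x y => decide ((x, y) ∈ patL₁)) (gt₂ := fun x y => decide ((x, y) ∈ patL₂)) hT o1 o2
    (fun r x y h => Rew.rule ⟨(x, y), by simpa using h, rfl⟩) (by simp)
    (fun x y h => h3 (x, y) (by simpa using h)) (fun x y h => h4 (x, y) (by simpa using h))
    patE patM 7 (by decide) (by decide) (by decide)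
  obtain ⟨p1, p2⟩ := persist_st patE patM T
  have f1 : (st patE patM patM.length).1 = ∅ := by decide
  have f2 : (st patE patM patM.length).2 = patL₂ := by decide
  rw [f1] at p1
  rw [f2] at p2
  have nf : ∀ i x, (∀ j, (i, j) ∉ patL₂) → ¬ Rew (imR T patL₂) (T i) x := by
    rintro i x hi ⟨l, r, C, σ, ⟨p, hp, e⟩, c, _⟩
    obtain ⟨rfl, rfl⟩ := Prod.mk.inj e
    have nv : ∀ y, (T p.1).sub σ ≠ .var y := by
      intro y
      cases e' : T p.1 with
      | var z => exact (hv _ _ e').elim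
      | app f a => simp
    obtain ⟨_, rfl⟩ := ho i p.1 C _ Tm.var σ c nv (by simp)
    exact hi p.2 hp
  have rl : ∀ i j, (i, j) ∈ patL₂ → Rew (imR T patL₂) (T i) (T j) :=
    fun i j h => Rew.rule ⟨(i, j), h, rfl⟩
  refine ⟨_, _, hr, ?_, by rw [p1]; simp [imE], ?_⟩
  · rw [p2]
    rintro l₁ r₁ l₂ r₂ u C ⟨p, hp, e⟩ ⟨q, hq, e'⟩ c1 c2 ⟨τ₁, τ₂, c3⟩
    obtain ⟨rfl, rfl⟩ := Prod.mk.inj e
    obtain ⟨rfl, rfl⟩ := Prod.mk.inj e'
    obtain ⟨rfl, e2⟩ := ho _ _ C u τ₁ τ₂ c1 c2 c3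
    simp only [fill_hole] at c1
    subst c1
    refine ⟨Tm.var, Tm.var, by rw [e2], fun ρ₁ ρ₂ h => ⟨ρ₁, by simp, ?_⟩, ?_⟩
    · rw [sub_id, ← h, e2]
    · have key : ∀ p ∈ patL₂, ∀ q ∈ patL₂, p.1 = q.1 → q.2 = p.2 ∨
          s(q.2, p.2) ∈ (st patE patM 5).1 ∨ s(q.2, p.2) ∈ (st patE patM 12).1 := by decide
      simp only [csub_hole, fill_hole, sub_id]
      rcases key p hp q hq e2 with k | k | k
      · exact Or.inl (by rw [k])
      · exact Or.inr ⟨5, _, k, rfl⟩
      · exact Or.inr ⟨12, _, k, rfl⟩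
  · rw [p2]
    exact not_conf (u := T 0) (s := T 2) (t := T 4) (.single (rl 0 2 (by decide)))
      (.head (rl 0 1 (by decide)) (.single (rl 1 4 (by decide)))) (fun x => nf 2 x (by decide))
      (fun x => nf 4 x (by decide)) (fun e => by simpa using hT e)

end KBC
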