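import Pool.Agent.P.MP_14079b_lc.Ground
import Pool.Agent.P.MP_14079b_lc.Bin

set_option autoImplicit false

namespace KBC

variable {F : Type} {ar : F → ℕ}

/-- a word in unary symbols applied to a term -/
def wrd (c : Bool → F) (w : List Bool) (t : Tm ar) : Tm ar := w.foldr (fun j s => un (c j) s) t

theorem wrd_sub (c : Bool → F) (σ : ℕ → Tm ar) (w : List Bool) (t : Tm ar) :
    (wrd c w t).sub σ = wrd c w (t.sub σ) := by
  induction w with
  | nil => rfl
  | cons j w ih => simp only [wrd, List.foldr_cons] at ih ⊢; rw [← ih]; rfl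

theorem wt_wrd (W : F → ℕ) {c : Bool → F} (hc : ∀ j, ar (c j) = 1) (w : List Bool) (t : Tm ar) :
    wt W (wrd c w t) = (w.map (fun j => W (c j))).sum + wt W t := by
  induction w with
  | nil => simp [wrd]
  | cons j w ih =>
    have := wt_un W (hc j) 1 (wrd c w t)
    simp only [Function.iterate_one, one_mul] at this
    rw [show wrd c (j :: w) t = un (c j) (wrd c w t) from rfl, this, ih]
    simp [add_assoc]

theorem wrd_cmp {c : Bool → F} (hi : Function.Injective c) (hc : ∀ j, ar (c j) = 1) {s t : Tm ar}
    (v : List Bool) : ∀ w : List Bool, wrd c v s = wrd c w t → v <+: w ∨ w <+: v := by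
  induction v with
  | nil => exact fun w _ => Or.inl List.nil_prefix
  | cons j v ih =>
    intro w h
    cases w with
    | nil => exact Or.inr List.nil_prefix
    | cons k w =>
      have h' : un (c j) (wrd c v s) = un (c k) (wrd c w t) := h
      obtain rfl := hi (app_hd h')
      simpa using ih w (congrFun (app_inj h') ⟨0, by have := hc j; omega⟩)

theorem wrd_fill {c : Bool → F} (hc : ∀ j, ar (c j) = 1) {u : Tm ar} (C : Ctx ar) :
    ∀ w : List Bool, wrd c w (.var 0) = C.fill u →
      C = .hole ∨ ∃ v ∈ w.tail.tails, u = wrd c v (.var 0) := by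
  induction C with
  | hole => exact fun _ _ => Or.inl rfl
  | app g a i C ih =>
    intro w h
    right
    cases w with
    | nil => simp [wrd] at h
    | cons j w =>
      have h' : un (c j) (wrd c w (.var 0)) = (Ctx.app g a i C).fill u := h
      obtain rfl : c j = g := app_hd h'
      rw [fill_app, upd_un (hc j)] at h'
      have h1 := congrFun (app_inj h') i
      rcases ih w h1 with rfl | ⟨v, hv, e⟩
      · exact ⟨w, by simp, h1.symm⟩
      · exact ⟨v, (List.mem_tails _ _).2 (((List.mem_tails _ _).1 hv).trans (List.tail_suffix w)), e⟩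

def wd (x y : ℕ) : List Bool :=
  true :: true :: (List.replicate y false ++ (List.replicate x [true, false]).flatten)

def wds : Fin 5 → List Bool := ![wd 4 3, wd 3 2, wd 1 4, wd 2 6, wd 1 1]

theorem bad_two (A B : F) (hA : ar A = 1) (hB : ar B = 1) (hAB : A ≠ B) : Bad ar := by
  classical
  let c : Bool → F := fun j => if j then A else B
  have hc : ∀ j, ar (c j) = 1 := fun j => by cases j <;> simp [c, hA, hB]
  have hi : Function.Injective c := by
    intro j k e
    cases j <;> cases k <;> simp_all [c]
  have n1 : ∀ i, wds i ≠ [] := by decide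
  have n2 : ∀ i, ∀ v ∈ (wds i).tail.tails, v = [] ∨ ∀ j, ¬ (v <+: wds j ∨ wds j <+: v) := by
    decide
  have n3 : ∀ i j, (wds i <+: wds j ∨ wds j <+: wds i) → i = j := by decide
  have o : ∀ (x y : ℕ) (v w : List Bool), (w.map (fun j => if j then x else y)).sum <
      (v.map (fun j => if j then x else y)).sum → ∀ σ : ℕ → Tm ar,
      wt (fun g => if g = A then x else y) ((wrd c w (.var 0)).sub σ) <
        wt (fun g => if g = A then x else y) ((wrd c v (.var 0)).sub σ) := by
    intro x y v w h σ
    have e : (fun j => if c j = A then x else y) = fun j : Bool => if j then x else y := by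
      funext j
      cases j <;> simp [c, hAB.symm]
    rw [wrd_sub, wrd_sub, wt_wrd _ hc, wt_wrd _ hc, e]
    exact Nat.add_lt_add_right h _
  refine pat_bad (fun i => wrd c (wds i) (.var 0)) ?_ ?_ (wt_ord _) (wt_ord _)
    (fun p hp => o 1 0 _ _ (by revert p; decide)) (fun p hp => o 0 1 _ _ (by revert p; decide))
  · intro j x h
    cases e : wds j with
    | nil => exact n1 j e
    | cons k w => simp only [e, wrd, List.foldr_cons, un] at h; cases h
  · intro i j C u σ τ e nv e'
    rcases wrd_fill hc C _ e with rfl | ⟨v, hv, rfl⟩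
    · obtain rfl : wrd c (wds i) (.var 0) = u := e
      rw [wrd_sub, wrd_sub] at e'
      exact ⟨rfl, n3 i j (wrd_cmp hi hc _ _ e')⟩
    · rw [wrd_sub, wrd_sub] at e'
      rcases n2 i v hv with rfl | h
      · exact (nv 0 rfl).elim
      · exact (h j (wrd_cmp hi hc _ _ e')).elim

theorem bad_of_large (h : ¬ (((∀ f, ar f = 0) ∧ ENat.card F ≤ 4) ∨
    ((∀ f, ar f ≤ 1) ∧ Function.Injective ar))) : Bad ar := by
  rw [not_or] at h
  obtain ⟨h1, h2⟩ := h
  by_cases a : ∀ f, ar f ≤ 1
  · obtain ⟨x, y, e, ne⟩ : ∃ x y, ar x = ar y ∧ x ≠ y := by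
      by_contra hc
      exact h2 ⟨a, fun x y e => by_contra fun ne => hc ⟨x, y, e, ne⟩⟩
    by_cases b : ∀ f, ar f = 0
    · have c : ¬ ENat.card F ≤ 4 := fun c => h1 ⟨b, c⟩
      have d : Nonempty (Fin 5 ↪ F) := by
        cases finite_or_infinite F with
        | inl _ =>
          have := Fintype.ofFinite F
          refine Function.Embedding.nonempty_of_card_le ?_
          rw [ENat.card_eq_coe_fintype_card] at c
          have : ¬ Fintype.card F ≤ 4 := fun k => c (by exact_mod_cast k)
          simp
          omega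
        | inr _ => exact ⟨(Fin.valEmbedding).trans (Infinite.natEmbedding F)⟩
      obtain ⟨d⟩ := d
      exact bad_five d d.injective (fun i => b _)
    · obtain ⟨f, hf⟩ := not_forall.1 b
      have hf1 : ar f = 1 := by have := a f; omega
      by_cases z : ar x = 0
      · exact bad_un f x y hf1 z (e ▸ z) ne
      · have : ar x = 1 := by have := a x; omega
        exact bad_two x y this (e ▸ this) ne
  · obtain ⟨f, hf⟩ := not_forall.1 a
    exact bad_bin f (by omega)

end KBC
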