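import Pool.Agent.P.MP_14079b_lc.Huet

set_option autoImplicit false

namespace KBC

open Relation

variable {F : Type} {ar : F → ℕ}

def hgt : Tm ar → ℕ
  | .var _ => 0
  | .app f a => if h : 0 < ar f then 1 + hgt (a ⟨0, h⟩) else 0

def usz : Tm ar → ℕ
  | .var _ => 0
  | .app f a => if h : 0 < ar f then 1 + usz (a ⟨0, h⟩) else 1

def dep : Ctx ar → ℕ
  | .hole => 0
  | .app _ _ _ C => 1 + dep C

theorem rtg_ctx {P : Set (Tm ar × Tm ar)} {s t : Tm ar} (h : ReflTransGen (Rew P) s t)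
    (C : Ctx ar) : ReflTransGen (Rew P) (C.fill s) (C.fill t) := by
  induction h with
  | refl => exact .refl
  | tail _ b ih => exact ih.tail (by simpa using b.ctx C Tm.var)

section
variable (h1 : ∀ f, ar f ≤ 1)
include h1

theorem idx_eq {f : F} (i j : Fin (ar f)) : i = j := by
  have := h1 f
  have a := i.2
  have b := j.2
  apply Fin.ext
  omega

theorem upd1 {f : F} (a : Fin (ar f) → Tm ar) (i : Fin (ar f)) (s : Tm ar) :
    Function.update a i s = fun _ => s := by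
  funext j
  rw [idx_eq h1 j i]
  simp

theorem hgt_app {f : F} (a : Fin (ar f) → Tm ar) (i : Fin (ar f)) :
    hgt (.app f a) = 1 + hgt (a i) := by
  have h : 0 < ar f := lt_of_le_of_lt (Nat.zero_le _) i.2
  rw [idx_eq h1 i ⟨0, h⟩]
  simp [hgt, h]

theorem usz_app {f : F} (a : Fin (ar f) → Tm ar) (i : Fin (ar f)) :
    usz (.app f a) = 1 + usz (a i) := by
  have h : 0 < ar f := lt_of_le_of_lt (Nat.zero_le _) i.2
  rw [idx_eq h1 i ⟨0, h⟩]
  simp [usz, h]

theorem hgt_fill (C : Ctx ar) (u : Tm ar) : hgt (C.fill u) = dep C + hgt u := by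
  induction C with
  | hole => simp [dep]
  | app f a i C ih => rw [fill_app, hgt_app h1 _ i]; simp [dep, ih]; omega

theorem usz_fill (C : Ctx ar) (u : Tm ar) : usz (C.fill u) = dep C + usz u := by
  induction C with
  | hole => simp [dep]
  | app f a i C ih => rw [fill_app, usz_app h1 _ i]; simp [dep, ih]; omega

theorem csub_fill (C : Ctx ar) (σ : ℕ → Tm ar) (x : Tm ar) : (C.sub σ).fill x = C.fill x := by
  induction C with
  | hole => rfl
  | app f a i C ih => simp [upd1 h1, ih]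

theorem usz_sub (l : Tm ar) (σ : ℕ → Tm ar) :
    usz l ≤ usz (l.sub σ) ∧ (usz (l.sub σ) ≤ usz l → ∃ τ, (l.sub σ).sub τ = l) := by
  induction l with
  | var x =>
    refine ⟨by simp [usz], fun h => ?_⟩
    simp only [sub_var'] at h ⊢
    cases e : σ x with
    | var y => exact ⟨fun _ => .var x, rfl⟩
    | app g b =>
      rw [e] at h
      simp only [usz] at h
      split_ifs at h <;> omega
  | app f a ih =>
    by_cases h : 0 < ar f
    · rw [sub_app, usz_app h1 _ ⟨0, h⟩, usz_app h1 _ ⟨0, h⟩]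
      obtain ⟨i1, i2⟩ := ih ⟨0, h⟩
      refine ⟨by omega, fun e => ?_⟩
      obtain ⟨τ, hτ⟩ := i2 (by omega)
      refine ⟨τ, ?_⟩
      simp only [sub_app]
      congr 1
      funext j
      rw [idx_eq h1 j ⟨0, h⟩]
      exact hτ
    · refine ⟨by simp [usz, h], fun _ => ⟨Tm.var, ?_⟩⟩
      simp only [sub_id, sub_app]
      congr 1
      funext j
      exact (h (lt_of_le_of_lt (Nat.zero_le _) j.2)).elim

theorem usz_enc (l s : Tm ar) (a : Encomp s l) (b : ¬ Encomp l s) : usz l < usz s := by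
  obtain ⟨C, σ, rfl⟩ := a
  by_contra hn
  rw [usz_fill h1] at hn
  obtain ⟨i1, i2⟩ := usz_sub h1 l σ
  cases C with
  | hole =>
    obtain ⟨τ, hτ⟩ := i2 (by omega)
    exact b ⟨.hole, τ, hτ.symm⟩
  | app f a i C => simp only [dep] at hn; omega

theorem ctx_cmp (C₁ : Ctx ar) : ∀ (C₂ : Ctx ar) (a b : Tm ar), C₁.fill a = C₂.fill b →
    (∃ D : Ctx ar, a = D.fill b ∧ ∀ x, C₂.fill x = C₁.fill (D.fill x)) ∨
    (∃ D : Ctx ar, b = D.fill a ∧ ∀ x, C₁.fill x = C₂.fill (D.fill x)) := by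
  induction C₁ with
  | hole => intro C₂ a b h; exact Or.inl ⟨C₂, h, fun _ => rfl⟩
  | app f a' i C ih =>
    intro C₂ a b h
    cases C₂ with
    | hole => exact Or.inr ⟨_, h.symm, fun _ => rfl⟩
    | app g b' j D =>
      obtain rfl := app_hd h
      have e := congrFun (app_inj h) i
      simp only [upd1 h1] at e
      rcases ih D a b e with ⟨D', d1, d2⟩ | ⟨D', d1, d2⟩
      · exact Or.inl ⟨D', d1, fun x => by simp [upd1 h1, d2]⟩
      · exact Or.inr ⟨D', d1, fun x => by simp [upd1 h1, d2]⟩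

theorem split_sub (σ : ℕ → Tm ar) (b : Tm ar) (l : Tm ar) : ∀ D : Ctx ar, l.sub σ = D.fill b →
    (∃ (C : Ctx ar) (u : Tm ar), l = C.fill u ∧ (∀ x, u ≠ .var x) ∧ u.sub σ = b ∧
      ∀ x, D.fill x = C.fill x) ∨
    (∃ (y : ℕ) (D' : Ctx ar), σ y = D'.fill b ∧
      ∀ x, l.sub (Function.update σ y (D'.fill x)) = D.fill x) := by
  induction l with
  | var y => intro D h; exact Or.inr ⟨y, D, h, fun x => by simp⟩
  | app f a ih =>
    intro D h
    cases D with
    | hole => exact Or.inl ⟨.hole, _, rfl, fun x => by simp, h, fun _ => rfl⟩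
    | app g b' j D =>
      obtain rfl := app_hd h
      have e := congrFun (app_inj h) j
      simp only [upd1 h1] at e
      rcases ih j D e with ⟨C, u, c1, c2, c3, c4⟩ | ⟨y, D', d1, d2⟩
      · exact Or.inl ⟨.app f a j C, u, by simp [← c1], c2, c3, fun x => by simp [upd1 h1, c4]⟩
      · refine Or.inr ⟨y, D', d1, fun x => ?_⟩
        simp only [sub_app, fill_app, upd1 h1]
        congr 1
        funext i
        rw [idx_eq h1 i j]
        exact d2 x

theorem rtg_sub {P : Set (Tm ar × Tm ar)} {σ τ : ℕ → Tm ar}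
    (h : ∀ x, ReflTransGen (Rew P) (σ x) (τ x)) (t : Tm ar) :
    ReflTransGen (Rew P) (t.sub σ) (t.sub τ) := by
  induction t with
  | var x => exact h x
  | app f a ih =>
    by_cases e : 0 < ar f
    · have := rtg_ctx (ih ⟨0, e⟩) (.app f a ⟨0, e⟩ .hole)
      simp only [fill_app, fill_hole, upd1 h1] at this
      have k : ∀ ρ : ℕ → Tm ar, (Tm.app f a).sub ρ = .app f (fun _ => (a ⟨0, e⟩).sub ρ) := by
        intro ρ
        simp only [sub_app]
        congr 1
        funext j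
        rw [idx_eq h1 j ⟨0, e⟩]
      rw [k, k]
      exact this
    · have : (Tm.app f a).sub σ = (Tm.app f a).sub τ := by
        simp only [sub_app]
        congr 1
        funext j
        exact (e (lt_of_le_of_lt (Nat.zero_le _) j.2)).elim
      rw [this]

theorem peak_half {E : ℕ → Set (Sym2 (Tm ar))} {P : Set (Tm ar × Tm ar)} (hF : Fair E P)
    (hP : ∀ l r, (l, r) ∈ P → ∀ σ τ : ℕ → Tm ar, l.sub σ = l.sub τ → r.sub σ = r.sub τ)
    {l₁ r₁ l₂ r₂ : Tm ar} (m1 : (l₁, r₁) ∈ P) (m2 : (l₂, r₂) ∈ P) (C₁ D : Ctx ar)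
    (σ₁ σ₂ : ℕ → Tm ar) (e : l₁.sub σ₁ = D.fill (l₂.sub σ₂)) :
    Join P (C₁.fill (D.fill (r₂.sub σ₂))) (C₁.fill (r₁.sub σ₁)) ∨
      ∃ (j : ℕ) (a b : Tm ar) (σ : ℕ → Tm ar), s(a, b) ∈ E j ∧
        C₁.fill (D.fill (r₂.sub σ₂)) = C₁.fill (a.sub σ) ∧
        C₁.fill (r₁.sub σ₁) = C₁.fill (b.sub σ) := by
  rcases split_sub h1 σ₁ _ l₁ D e with ⟨C, u, c1, c2, c3, c4⟩ | ⟨y, D', d1, d2⟩
  · obtain ⟨ρ₁, ρ₂, _, p2, p3⟩ := hF l₁ r₁ l₂ r₂ u C m1 m2 c1 c2 ⟨σ₁, σ₂, c3⟩
    obtain ⟨θ, t1, t2⟩ := p2 σ₁ σ₂ c3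
    rw [sub_sub] at t1 t2
    have u1 := hP _ _ m1 _ _ t1
    have u2 := hP _ _ m2 _ _ t2
    rw [← sub_sub] at u1 u2
    have u3 : D.fill (r₂.sub σ₂) = ((C.sub ρ₁).fill (r₂.sub ρ₂)).sub θ := by
      rw [fill_sub, csub_fill h1, csub_fill h1, c4, u2]
    rcases p3 with p3 | ⟨j, p3⟩
    · left
      rw [u3, p3, ← u1]
      exact Join.refl _
    · exact Or.inr ⟨j, _, _, θ, p3, by rw [u3], by rw [u1]⟩
  · left
    refine ⟨C₁.fill (r₁.sub (Function.update σ₁ y (D'.fill (r₂.sub σ₂)))), ?_, ?_⟩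
    · rw [← d2]
      exact .single ⟨l₁, r₁, C₁, _, m1, rfl, rfl⟩
    · refine rtg_ctx (rtg_sub h1 (fun x => ?_) r₁) C₁
      by_cases hx : x = y
      · subst hx
        rw [Function.update_self, d1]
        exact .single ⟨l₂, r₂, D', σ₂, m2, rfl, rfl⟩
      · rw [Function.update_of_ne hx]

theorem hgt_le (h2 : Function.Injective ar) :
    ∃ θ : ℕ → Tm ar, ∀ t s : Tm ar, hgt s ≤ hgt t → ∃ C : Ctx ar, t.sub θ = C.fill (s.sub θ) := by
  have hz : ∃ z : Tm ar, ∀ t : Tm ar, hgt t = 0 → t.sub (fun _ => z) = z := by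
    by_cases hc : ∃ c, ar c = 0
    · obtain ⟨c, hc⟩ := hc
      refine ⟨.app c (fun i => (by have := i.2; omega : False).elim), fun t ht => ?_⟩
      cases t with
      | var x => rfl
      | app g b =>
        have : ar g = 0 := by
          by_contra hn
          rw [hgt_app h1 b ⟨0, Nat.pos_of_ne_zero hn⟩] at ht
          omega
        obtain rfl : g = c := h2 (this.trans hc.symm)
        simp only [sub_app]
        congr 1
        funext i
        have := i.2
        omega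
    · refine ⟨.var 0, fun t ht => ?_⟩
      cases t with
      | var x => rfl
      | app g b =>
        have : ar g ≠ 0 := fun e => hc ⟨g, e⟩
        rw [hgt_app h1 b ⟨0, Nat.pos_of_ne_zero this⟩] at ht
        omega
  obtain ⟨z, hz⟩ := hz
  have heq : ∀ s t : Tm ar, hgt s = hgt t → s.sub (fun _ => z) = t.sub (fun _ => z) := by
    intro s
    induction s with
    | var x => intro t h; rw [hz _ rfl, hz t h.symm]
    | app f a ih =>
      intro t h
      by_cases e : hgt t = 0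
      · rw [hz _ (h.trans e), hz t e]
      · cases t with
        | var x => exact (e rfl).elim
        | app g b =>
          have e1 : 0 < ar g := by
            by_contra hn
            exact e (by simp [hgt, hn])
          have e2 : 0 < ar f := by
            by_contra hn
            exact e (h.symm.trans (by simp [hgt, hn]))
          obtain rfl : f = g := h2 (by have := h1 f; have := h1 g; omega)
          simp only [sub_app]
          congr 1
          funext i
          rw [hgt_app h1 a i, hgt_app h1 b i] at h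
          exact ih i _ (by omega)
  refine ⟨fun _ => z, fun t => ?_⟩
  induction t with
  | var x => intro s h; exact ⟨.hole, heq _ _ (le_antisymm (Nat.zero_le _) h)⟩
  | app g b ih =>
    intro s h
    rcases h.eq_or_lt with e | e
    · exact ⟨.hole, heq _ _ e.symm⟩
    · have e1 : 0 < ar g := by
        by_contra hn
        simp [hgt, hn] at e
      rw [hgt_app h1 b ⟨0, e1⟩] at e
      obtain ⟨C, hC⟩ := ih ⟨0, e1⟩ s (by omega)
      exact ⟨.app g (fun i => (b i).sub (fun _ => z)) ⟨0, e1⟩ C, by simp [← hC]⟩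

theorem unary_safe (h2 : Function.Injective ar) {E : ℕ → Set (Sym2 (Tm ar))}
    {R : ℕ → Set (Tm ar × Tm ar)} (hr : IsRun E R) (hF : Fair E (persist R))
    (hE : persist E = ∅) : Confluent (persist R) := by
  have hP : ∀ l r, (l, r) ∈ persist R → ∀ σ τ : ℕ → Tm ar, l.sub σ = l.sub τ →
      r.sub σ = r.sub τ := by
    rintro l r ⟨i, hi⟩ σ τ e
    obtain ⟨gt, g1, g2⟩ := hr.ord i
    exact g1.agree (g2 _ _ (hi i le_rfl)) e
  refine huet hr hE hgt usz ?_ (usz_enc h1) ?_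
  · rintro i s t ⟨l, r, C, σ, c1, rfl, rfl⟩
    obtain ⟨gt, g1, g2⟩ := hr.ord i
    obtain ⟨θ, hθ⟩ := hgt_le h1 h2
    rw [hgt_fill h1, hgt_fill h1]
    by_contra hn
    obtain ⟨D, hD⟩ := hθ (r.sub σ) (l.sub σ) (by omega)
    have k1 := g1.2.2 _ _ .hole σ (g2 _ _ c1)
    have k2 := g1.2.2 _ _ .hole θ k1
    simp only [fill_hole] at k2
    rw [hD] at k2
    exact g1.no_loop _ _ k2
  · rintro u s t ⟨l₁, r₁, C₁, σ₁, m1, e1, rfl⟩ ⟨l₂, r₂, C₂, σ₂, m2, e2, rfl⟩
    rcases ctx_cmp h1 C₁ C₂ _ _ (e1.symm.trans e2) with ⟨D, d1, d2⟩ | ⟨D, d1, d2⟩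
    · rw [d2]
      rcases peak_half h1 hF hP m1 m2 C₁ D σ₁ σ₂ d1 with hJ | ⟨j, a, b, σ, c1, c2, c3⟩
      · exact Or.inl hJ.symm
      · exact Or.inr ⟨j, b, a, C₁, σ, by rwa [Sym2.eq_swap], c3, c2⟩
    · rw [d2]
      rcases peak_half h1 hF hP m2 m1 C₂ D σ₂ σ₁ d1 with hJ | ⟨j, a, b, σ, c1, c2, c3⟩
      · exact Or.inl hJ
      · exact Or.inr ⟨j, a, b, C₂, σ, c1, c2, c3⟩

end

end KBC
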